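import Mathlib

/-!
# Brouwer's characterisation of the Cantor space
A nonempty compact, second countable, totally disconnected Hausdorff space without isolated
points is homeomorphic to `ℕ → Bool`.
-/

set_option autoImplicit false

open TopologicalSpace Set

namespace Pool.Agent.H83.CH

section Brouwer

variable {D : Type*} [TopologicalSpace D]

/-- The splitting set: given the test clopen `B` and the current set `U`. -/
def GoodSplit (B U A : Set D) : Prop :=
  IsClopen A ∧ A ⊆ U ∧ A.Nonempty ∧ (U \ A).Nonempty ∧
    ((U ∩ B).Nonempty → (U \ B).Nonempty → A = U ∩ B)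

theorem exists_goodSplit
    (hsplit : ∀ U : Set D, IsClopen U → U.Nonempty →
      ∃ A : Set D, IsClopen A ∧ A ⊆ U ∧ A.Nonempty ∧ (U \ A).Nonempty)
    (B U : Set D) (hB : IsClopen B) (hU : IsClopen U) (hne : U.Nonempty) :
    ∃ A, GoodSplit B U A := by
  by_cases h : (U ∩ B).Nonempty ∧ (U \ B).Nonempty
  · refine ⟨U ∩ B, hU.inter hB, inter_subset_left, h.1, ?_, fun _ _ => rfl⟩
    obtain ⟨x, hx1, hx2⟩ := h.2
    exact ⟨x, hx1, fun h => hx2 h.2⟩
  · obtain ⟨A, hA, hAU, hAn, hAn'⟩ := hsplit U hU hne
    exact ⟨A, hA, hAU, hAn, hAn', fun h1 h2 => absurd ⟨h1, h2⟩ h⟩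

open Classical in
/-- choice of the splitting -/
noncomputable def spl (Bs : ℕ → Set D) (i : ℕ) (U : Set D) : Set D :=
  if h : ∃ A, GoodSplit (Bs i) U A then h.choose else ∅

open Classical in
/-- the node attached to a list of bits -/
noncomputable def node (Bs : ℕ → Set D) : List Bool → Set D
  | [] => univ
  | b :: l => if b then spl Bs l.length (node Bs l) else node Bs l \ spl Bs l.length (node Bs l)

open Classical in
/-- the prefix of length `n` of the address of `x` (latest bit first) -/
noncomputable def pre (Bs : ℕ → Set D) (x : D) : ℕ → List Bool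
  | 0 => []
  | n + 1 => (decide (x ∈ spl Bs n (node Bs (pre Bs x n)))) :: pre Bs x n

theorem pre_length (Bs : ℕ → Set D) (x : D) (n : ℕ) : (pre Bs x n).length = n := by
  induction n with
  | zero => rfl
  | succ n ih => simp [pre, ih]

open Classical in
theorem mem_node_pre (Bs : ℕ → Set D) (x : D) (n : ℕ) : x ∈ node Bs (pre Bs x n) := by
  induction n with
  | zero => simp [pre, node]
  | succ n ih =>
    simp only [pre, node, pre_length]
    by_cases h : x ∈ spl Bs n (node Bs (pre Bs x n))
    · simp [h]
    · simp [h, ih]

/-- list of the first `n` bits of a sequence, latest first -/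
def plist (c : ℕ → Bool) : ℕ → List Bool
  | 0 => []
  | n + 1 => c n :: plist c n

theorem plist_length (c : ℕ → Bool) (n : ℕ) : (plist c n).length = n := by
  induction n with
  | zero => rfl
  | succ n ih => simp [plist, ih]

variable [CompactSpace D] [T2Space D] [SecondCountableTopology D] [TotallyDisconnectedSpace D]

theorem brouwer [Nonempty D]
    (hsplit : ∀ U : Set D, IsClopen U → U.Nonempty →
      ∃ A : Set D, IsClopen A ∧ A ⊆ U ∧ A.Nonempty ∧ (U \ A).Nonempty) :
    Nonempty (D ≃ₜ (ℕ → Bool)) := by
  classical
  have : Countable (Clopens D) := Clopens.countable_iff_secondCountable.2 inferInstance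
  have : Nonempty (Clopens D) := ⟨⊤⟩
  obtain ⟨e, he⟩ := exists_surjective_nat (Clopens D)
  set Bs : ℕ → Set D := fun n => (e n : Set D) with hBs
  have hBc : ∀ n, IsClopen (Bs n) := fun n => (e n).isClopen
  -- basic properties of the nodes
  have hgood : ∀ (i : ℕ) (U : Set D), IsClopen U → U.Nonempty → GoodSplit (Bs i) U (spl Bs i U) := by
    intro i U hU hne
    have h := exists_goodSplit hsplit (Bs i) U (hBc i) hU hne
    rw [spl, dif_pos h]
    exact h.choose_spec
  have hnode : ∀ l : List Bool, IsClopen (node Bs l) ∧ (node Bs l).Nonempty := by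
    intro l
    induction l with
    | nil => exact ⟨isClopen_univ, univ_nonempty⟩
    | cons b l ih =>
      have hg := hgood l.length _ ih.1 ih.2
      cases b
      · simp only [node, Bool.false_eq_true, if_false]
        exact ⟨ih.1.diff hg.1, hg.2.2.2.1⟩
      · simp only [node, if_true]
        exact ⟨hg.1, hg.2.2.1⟩
  have hsub : ∀ (b : Bool) (l : List Bool), node Bs (b :: l) ⊆ node Bs l := by
    intro b l
    have hg := hgood l.length _ (hnode l).1 (hnode l).2
    cases b
    · simp only [node, Bool.false_eq_true, if_false]
      exact sdiff_subset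
    · simp only [node, if_true]
      exact hg.2.1
  -- the address map
  obtain ⟨s, hs⟩ : ∃ s : D → ℕ → Bool,
      ∀ x n, s x n = decide (x ∈ spl Bs n (node Bs (pre Bs x n))) := ⟨_, fun _ _ => rfl⟩
  have hpl : ∀ x n, plist (s x) n = pre Bs x n := by
    intro x n
    induction n with
    | zero => rfl
    | succ n ih => simp only [plist, pre, ih, hs]
  -- continuity
  have hloc : ∀ n, IsLocallyConstant (fun x => pre Bs x n) := by
    intro n
    induction n with
    | zero => exact IsLocallyConstant.const _
    | succ n ih =>
      rw [IsLocallyConstant.iff_eventually_eq]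
      intro x
      have h1 := (IsLocallyConstant.iff_eventually_eq _).1 ih x
      have hcl : IsClopen (spl Bs n (node Bs (pre Bs x n))) :=
        (hgood n _ (hnode _).1 (hnode _).2).1
      have h2 : ∀ᶠ y in nhds x, (y ∈ spl Bs n (node Bs (pre Bs x n)) ↔
          x ∈ spl Bs n (node Bs (pre Bs x n))) := by
        by_cases hx : x ∈ spl Bs n (node Bs (pre Bs x n))
        · filter_upwards [hcl.isOpen.mem_nhds hx] with y hy
          simp [hx, hy]
        · filter_upwards [hcl.compl.isOpen.mem_nhds hx] with y hy
          simp only [hx, iff_false]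
          exact hy
      filter_upwards [h1, h2] with y hy1 hy2
      simp only [pre]
      rw [hy1]
      congr 1
      simp only [hy2]
  have hcont : Continuous s := by
    refine continuous_pi fun n => ?_
    have hlc : IsLocallyConstant (fun x => s x n) := by
      have h := (hloc (n + 1)).comp (fun l : List Bool => l.headD false)
      have h' : (fun x => s x n) = (fun l : List Bool => l.headD false) ∘ (fun x => pre Bs x (n+1)) := by
        funext x
        simp only [hs, Function.comp, pre, List.headD_cons]
      rw [h']
      exact h
    exact hlc.continuous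
  -- injectivity
  have hinj : Function.Injective s := by
    intro x y hxy
    by_contra hne
    obtain ⟨U, hU, hxU, hyU⟩ := exists_isClopen_of_totally_separated hne
    obtain ⟨i, hi⟩ := he ⟨U, hU⟩
    have hBi : Bs i = U := by simp [hBs, hi]
    have hp : pre Bs x i = pre Bs y i := by rw [← hpl, ← hpl, hxy]
    have hxm := mem_node_pre Bs x i
    have hym := mem_node_pre Bs y i
    rw [← hp] at hym
    have hg := hgood i _ (hnode (pre Bs x i)).1 (hnode (pre Bs x i)).2
    have hA := hg.2.2.2.2 ⟨x, hxm, by rw [hBi]; exact hxU⟩ ⟨y, hym, by rw [hBi]; exact hyU⟩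
    have h1 : x ∈ spl Bs i (node Bs (pre Bs x i)) := by
      rw [hA]; exact ⟨hxm, by rw [hBi]; exact hxU⟩
    have h2 : y ∉ spl Bs i (node Bs (pre Bs x i)) := by
      rw [hA]; rintro ⟨-, h⟩; rw [hBi] at h; exact hyU h
    have h3 : s x i = s y i := by rw [hxy]
    simp only [hs] at h3
    rw [← hp] at h3
    simp [h1, h2] at h3
  -- surjectivity
  have hsurj : Function.Surjective s := by
    intro c
    have hdec : ∀ n, node Bs (plist c (n + 1)) ⊆ node Bs (plist c n) := fun n => hsub _ _
    obtain ⟨x, hx⟩ := IsCompact.nonempty_iInter_of_sequence_nonempty_isCompact_isClosed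
      (fun n => node Bs (plist c n)) hdec (fun n => (hnode _).2) (hnode _).1.isClosed.isCompact
      (fun n => (hnode _).1.isClosed)
    rw [mem_iInter] at hx
    refine ⟨x, ?_⟩
    have key : ∀ n, pre Bs x n = plist c n ∧ (∀ m < n, s x m = c m) := by
      intro n
      induction n with
      | zero => exact ⟨rfl, fun m hm => absurd hm (by omega)⟩
      | succ n ih =>
        have hxn := hx (n + 1)
        have hsn : s x n = c n := by
          simp only [hs]
          rw [ih.1]
          simp only [plist, node] at hxn
          rw [plist_length] at hxn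
          cases hc : c n
          · rw [hc] at hxn
            simp only [Bool.false_eq_true, if_false] at hxn
            exact decide_eq_false hxn.2
          · rw [hc] at hxn
            simp only [if_true] at hxn
            exact decide_eq_true hxn
        refine ⟨?_, ?_⟩
        · have h4 := hsn
          rw [hs] at h4
          simp only [pre, plist]
          rw [h4, ih.1]
        · intro m hm
          rcases Nat.lt_succ_iff_lt_or_eq.1 hm with h | h
          · exact ih.2 m h
          · rw [h]; exact hsn
    funext n
    exact (key (n + 1)).2 n (by omega)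
  exact ⟨(Equiv.ofBijective s ⟨hinj, hsurj⟩).toHomeomorphOfContinuousClosed hcont
    hcont.isClosedMap⟩

end Brouwer

end Pool.Agent.H83.CH
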