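import Mathlib

/-!
# Local maximum principle on zero sets
If `q` is entire on a finite dimensional complex inner product space and `P` is an entire function
which is a coordinate in the direction `e` (`P (x + c e) = P x + c`), then on a zero of `q` in a
bounded open set `G` the real part of `P` is dominated by its value at a zero of `q` on `frontier G`.
-/

set_option autoImplicit false

open Set Filter Topology

namespace Pool.Agent.H83.CH

variable {V : Type*} [NormedAddCommGroup V] [InnerProductSpace ℂ V] [FiniteDimensional ℂ V]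

theorem lmp (q P : V → ℂ) (hq : Differentiable ℂ q) (hP : Differentiable ℂ P) (e v : V)
    (hPe : ∀ (x : V) (c : ℂ), P (x + c • e) = P x + c) (hv : v ≠ 0) (hve : inner ℂ v e = 0)
    (G : Set V) (hG : IsOpen G) (hGb : Bornology.IsBounded G) (y : V) (hy : y ∈ G)
    (hqy : q y = 0) : ∃ y' ∈ frontier G, q y' = 0 ∧ (P y).re ≤ (P y').re := by
  have : ProperSpace V := FiniteDimensional.proper ℂ V
  by_contra hcon
  push Not at hcon
  have hqc : Continuous q := hq.continuous
  have hPc : Continuous P := hP.continuous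
  -- the compact set `K`
  set K : Set V := {x | x ∈ closure G ∧ q x = 0 ∧ (P y).re ≤ (P x).re} with hK
  have hKc : IsCompact K := by
    have h1 : IsCompact (closure G) := hGb.isCompact_closure
    refine h1.of_isClosed_subset ?_ (fun x hx => hx.1)
    refine isClosed_closure.inter (IsClosed.inter ?_ ?_)
    · exact isClosed_eq hqc continuous_const
    · exact isClosed_le continuous_const (Complex.continuous_re.comp hPc)
  have hKn : K.Nonempty := ⟨y, subset_closure hy, hqy, le_rfl⟩
  obtain ⟨x1, hx1, hmax⟩ := hKc.exists_isMaxOn hKn (Complex.continuous_re.comp hPc).continuousOn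
  have hx1G : x1 ∈ G := by
    by_contra hx
    have hf : x1 ∈ frontier G := by
      rw [hG.frontier_eq]; exact ⟨hx1.1, hx⟩
    exact absurd hx1.2.2 (not_le.2 (hcon x1 hf hx1.2.1))
  -- points of `G` with larger real part are not zeros
  have hnz : ∀ x ∈ G, (P x1).re < (P x).re → q x ≠ 0 := by
    intro x hx hlt h0
    have hxK : x ∈ K := ⟨subset_closure hx, h0, hx1.2.2.trans hlt.le⟩
    exact absurd (hmax hxK) (not_le.2 hlt)
  -- the family of curves
  set Γ : ℝ → ℂ → V := fun ε ζ => x1 + ζ • v + ((ε : ℂ) - (P (x1 + ζ • v) - P x1)) • e with hΓ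
  have hΓP : ∀ ε ζ, P (Γ ε ζ) = P x1 + ε := by
    intro ε ζ
    simp only [hΓ]
    rw [hPe]
    ring
  have hΓd : ∀ ε, Differentiable ℂ (Γ ε) := by
    intro ε
    simp only [hΓ]
    have h1 : Differentiable ℂ (fun ζ : ℂ => x1 + ζ • v) :=
      (differentiable_const x1).add (differentiable_id.smul_const v)
    have h2 : Differentiable ℂ (fun ζ : ℂ => P (x1 + ζ • v)) := hP.comp h1
    exact h1.add (((differentiable_const _).sub (h2.sub (differentiable_const _))).smul_const e)
  have hΓc : Continuous (fun z : ℝ × ℂ => Γ z.1 z.2) := by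
    simp only [hΓ]
    have h1 : Continuous (fun z : ℝ × ℂ => x1 + z.2 • v) := by fun_prop
    have h2 : Continuous (fun z : ℝ × ℂ => P (x1 + z.2 • v)) := hPc.comp h1
    have h3 : Continuous (fun z : ℝ × ℂ => ((z.1 : ℂ) - (P (x1 + z.2 • v) - P x1))) :=
      (Complex.continuous_ofReal.comp continuous_fst).sub (h2.sub continuous_const)
    exact h1.add (h3.smul continuous_const)
  have hΓ0 : Γ 0 0 = x1 := by simp [hΓ]
  -- dichotomy
  have hf0d : Differentiable ℂ (fun ζ => q (Γ 0 ζ)) := hq.comp (hΓd 0)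
  have hf0a : AnalyticOnNhd ℂ (fun ζ => q (Γ 0 ζ)) univ := by
    intro z _
    exact hf0d.analyticAt z
  rcases (hf0a 0 (mem_univ _)).eventually_eq_zero_or_eventually_ne_zero with h0 | h0
  · -- identically zero
    have hz : ∀ ζ, q (Γ 0 ζ) = 0 := by
      have h1 := hf0a.eqOn_zero_of_preconnected_of_eventuallyEq_zero isPreconnected_univ
        (mem_univ (0 : ℂ)) h0
      intro ζ
      exact h1 (mem_univ ζ)
    -- unboundedness
    have hun : (Γ 0) ⁻¹' G ≠ univ := by
      intro hall
      obtain ⟨R, hR⟩ := hGb.subset_closedBall 0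
      have hvn : 0 < ‖v‖ := norm_pos_iff.2 hv
      have hb : ∀ ζ : ℂ, ‖ζ‖ * ‖v‖ ^ 2 ≤ ‖v‖ * (|R| + ‖x1‖) := by
        intro ζ
        have hmem : Γ 0 ζ ∈ G := by
          have : ζ ∈ (Γ 0) ⁻¹' G := by rw [hall]; trivial
          exact this
        have h1 : ‖Γ 0 ζ‖ ≤ R := by
          have := hR hmem
          simpa using this
        have h2 : inner ℂ v (Γ 0 ζ - x1) = ζ * ((‖v‖ : ℂ) ^ 2) := by
          have h3 : Γ 0 ζ - x1 = ζ • v + (((0 : ℝ) : ℂ) - (P (x1 + ζ • v) - P x1)) • e := by
            simp only [hΓ]; abel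
          rw [h3, inner_add_right, inner_smul_right, inner_smul_right, hve,
            inner_self_eq_norm_sq_to_K]
          simp
        have h4 : ‖inner ℂ v (Γ 0 ζ - x1)‖ ≤ ‖v‖ * ‖Γ 0 ζ - x1‖ := norm_inner_le_norm _ _
        rw [h2, norm_mul, norm_pow, Complex.norm_real, norm_norm] at h4
        refine h4.trans ?_
        gcongr
        calc ‖Γ 0 ζ - x1‖ ≤ ‖Γ 0 ζ‖ + ‖x1‖ := norm_sub_le _ _
          _ ≤ |R| + ‖x1‖ := by
            have := le_abs_self R
            linarith
      have h5 := hb (((‖v‖ * (|R| + ‖x1‖) + 1) / ‖v‖ ^ 2 : ℝ) : ℂ)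
      rw [Complex.norm_real, Real.norm_eq_abs, abs_of_nonneg (by positivity),
        div_mul_cancel₀ _ (by positivity)] at h5
      linarith
    have hfr : (frontier ((Γ 0) ⁻¹' G)).Nonempty := by
      rw [nonempty_frontier_iff]
      exact ⟨⟨0, by rw [mem_preimage, hΓ0]; exact hx1G⟩, hun⟩
    obtain ⟨ζ, hζ⟩ := hfr
    have hζ' := (hΓd 0).continuous.frontier_preimage_subset _ hζ
    have h1 := hcon _ hζ' (hz ζ)
    rw [hΓP] at h1
    simp only [Complex.ofReal_zero, add_zero] at h1
    exact absurd hx1.2.2 (not_le.2 h1)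
  · -- isolated zero
    -- a neighbourhood of `(0,0)` mapped into `G`
    have hnG : ∀ᶠ z : ℝ × ℂ in 𝓝 ((0 : ℝ), (0 : ℂ)), Γ z.1 z.2 ∈ G := by
      have h1 : Tendsto (fun z : ℝ × ℂ => Γ z.1 z.2) (𝓝 ((0 : ℝ), (0 : ℂ))) (𝓝 x1) := by
        have := hΓc.tendsto ((0 : ℝ), (0 : ℂ))
        simpa only [hΓ0] using this
      exact h1.eventually (hG.mem_nhds hx1G)
    rw [Metric.eventually_nhds_iff] at hnG
    obtain ⟨δ, hδ, hnG⟩ := hnG
    rw [eventually_nhdsWithin_iff, Metric.eventually_nhds_iff] at h0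
    obtain ⟨δ', hδ', h0⟩ := h0
    set ρ : ℝ := min δ δ' / 2 with hρ
    have hρpos : 0 < ρ := by positivity
    have hρδ : ρ < δ := by
      have : min δ δ' ≤ δ := min_le_left _ _
      linarith
    have hρδ' : ρ < δ' := by
      have : min δ δ' ≤ δ' := min_le_right _ _
      linarith
    -- minimum on the circle
    have hsph : IsCompact (Metric.sphere (0 : ℂ) ρ) := isCompact_sphere _ _
    have hsn : (Metric.sphere (0 : ℂ) ρ).Nonempty := by
      refine ⟨(ρ : ℂ), ?_⟩
      simp [abs_of_pos hρpos]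
    obtain ⟨ζm, hζm, hmin⟩ := hsph.exists_isMinOn hsn hf0d.continuous.norm.continuousOn
    set m : ℝ := ‖q (Γ 0 ζm)‖ with hm
    have hmpos : 0 < m := by
      rw [hm, norm_pos_iff]
      apply h0
      · rw [mem_sphere_zero_iff_norm] at hζm
        rw [dist_zero_right, hζm]; exact hρδ'
      · intro h
        rw [mem_singleton_iff] at h
        rw [h] at hζm
        simp at hζm
        exact hρpos.ne hζm
    -- uniform continuity: for small eps the values on the circle exceed `m/2`
    have hclose : ∀ᶠ ε : ℝ in 𝓝 0, ∀ ζ ∈ Metric.sphere (0 : ℂ) ρ, m / 2 < ‖q (Γ ε ζ)‖ := by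
      have hcont : Continuous (fun z : ℝ × ℂ => ‖q (Γ z.1 z.2)‖) := (hqc.comp hΓc).norm
      have hopen : IsOpen {z : ℝ × ℂ | m / 2 < ‖q (Γ z.1 z.2)‖} :=
        isOpen_lt continuous_const hcont
      have hsub : ({(0 : ℝ)} : Set ℝ) ×ˢ Metric.sphere (0 : ℂ) ρ ⊆
          {z : ℝ × ℂ | m / 2 < ‖q (Γ z.1 z.2)‖} := by
        rintro ⟨a, b⟩ ⟨ha, hb⟩
        simp only [mem_singleton_iff] at ha
        simp only [mem_ofPred_eq, ha]
        have := hmin hb
        simp only [mem_ofPred_eq] at this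
        linarith
      obtain ⟨u, w, hu, hw, hu0, hws, huw⟩ := generalized_tube_lemma isCompact_singleton hsph hopen hsub
      filter_upwards [hu.mem_nhds (hu0 rfl)] with ε hε ζ hζ
      exact huw (mk_mem_prod hε (hws hζ))
    -- values at the centre
    have hcen : Tendsto (fun ε : ℝ => ‖q (Γ ε 0)‖) (𝓝 0) (𝓝 0) := by
      have h1 : Continuous (fun ε : ℝ => ‖q (Γ ε 0)‖) :=
        ((hqc.comp hΓc).comp (continuous_id.prodMk continuous_const)).norm
      have h2 := h1.tendsto 0
      rw [hΓ0, hx1.2.1, norm_zero] at h2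
      exact h2
    have hev : ∀ᶠ ε : ℝ in 𝓝[>] 0, False := by
      have e1 : ∀ᶠ ε : ℝ in 𝓝[>] 0, ‖q (Γ ε 0)‖ < m / 2 :=
        nhdsWithin_le_nhds (hcen.eventually (gt_mem_nhds (by positivity)))
      have e2 : ∀ᶠ ε : ℝ in 𝓝[>] 0, ∀ ζ ∈ Metric.sphere (0 : ℂ) ρ, m / 2 < ‖q (Γ ε ζ)‖ :=
        nhdsWithin_le_nhds hclose
      have e3 : ∀ᶠ ε : ℝ in 𝓝[>] 0, ε < δ :=
        nhdsWithin_le_nhds (gt_mem_nhds hδ)
      filter_upwards [e1, e2, e3, self_mem_nhdsWithin] with ε h1 h2 h3 h4
      have hε : 0 < ε := h4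
      have hnz' : ∀ ζ ∈ Metric.closedBall (0 : ℂ) ρ, q (Γ ε ζ) ≠ 0 := by
        intro ζ hζ
        apply hnz
        · refine @hnG (ε, ζ) ?_
          rw [Prod.dist_eq]
          simp only [Real.dist_eq, sub_zero]
          rw [max_lt_iff]
          constructor
          · rw [abs_of_pos hε]; exact h3
          · exact lt_of_le_of_lt (Metric.mem_closedBall.1 hζ) hρδ
        · rw [hΓP]; simp [hε]
      have hd : DiffContOnCl ℂ (fun ζ => (q (Γ ε ζ))⁻¹) (Metric.ball 0 ρ) := by
        have h5 : DifferentiableOn ℂ (fun ζ => (q (Γ ε ζ))⁻¹) (Metric.closedBall 0 ρ) := by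
          intro ζ hζ
          exact (((hq.comp (hΓd ε)) ζ).inv (hnz' ζ hζ)).differentiableWithinAt
        apply DifferentiableOn.diffContOnCl
        rw [closure_ball _ hρpos.ne']
        exact h5
      have h6 := Complex.norm_le_of_forall_mem_frontier_norm_le (C := (m / 2)⁻¹)
        Metric.isBounded_ball hd (z := 0) (by
          intro z hz
          rw [frontier_ball _ hρpos.ne'] at hz
          rw [norm_inv]
          exact inv_anti₀ (by positivity) (h2 z hz).le) (subset_closure (Metric.mem_ball_self hρpos))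
      rw [norm_inv] at h6
      have h7 : q (Γ ε 0) ≠ 0 := hnz' 0 (Metric.mem_closedBall_self hρpos.le)
      have h8 : m / 2 ≤ ‖q (Γ ε 0)‖ := by
        have := inv_le_inv₀ (norm_pos_iff.2 h7) (by positivity : (0 : ℝ) < m / 2)
        exact this.1 h6
      linarith
    exact (hev.exists).elim (fun _ h => h)

end Pool.Agent.H83.CH
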