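import Mathlib
import Pool.Agent.H83.CH.LMP

/-!
# Cluster sets of zero sets and finite unions of walls with peak functions
-/

set_option autoImplicit false
set_option linter.unusedSectionVars false

open Set Filter Topology

namespace Pool.Agent.H83.CH

variable {V : Type*} [NormedAddCommGroup V] [InnerProductSpace ℂ V] [FiniteDimensional ℂ V]

/-- The cluster set of the zero sets of a sequence of functions. -/
def Clu (q : ℕ → V → ℂ) : Set V :=
  {x | ∀ ε > 0, ∃ᶠ i in atTop, ∃ z ∈ Metric.ball x ε, q i z = 0}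

/-- `M` has a peak function at `x0` on every sphere around `x0`. -/
def PeakAt (M : Set V) (x0 : V) : Prop :=
  ∀ r > 0, ∃ (P : V → ℂ) (e v : V), Differentiable ℂ P ∧
    (∀ (x : V) (c : ℂ), P (x + c • e) = P x + c) ∧ v ≠ 0 ∧ inner ℂ v e = 0 ∧
    ∀ x ∈ M, ‖x - x0‖ = r → (P x).re < (P x0).re

theorem not_mem_clu {q : ℕ → V → ℂ} {x : V} :
    x ∉ Clu q ↔ ∃ ε > 0, ∀ᶠ i in atTop, ∀ z ∈ Metric.ball x ε, q i z ≠ 0 := by
  simp only [Clu, mem_ofPred_eq, not_forall, not_frequently, not_exists, not_and, exists_prop]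

theorem isClosed_clu (q : ℕ → V → ℂ) : IsClosed (Clu q) := by
  rw [← isOpen_compl_iff, isOpen_iff_mem_nhds]
  intro x hx
  rw [mem_compl_iff, not_mem_clu] at hx
  obtain ⟨ε, hε, h⟩ := hx
  filter_upwards [Metric.ball_mem_nhds x (half_pos hε)] with y hy
  rw [mem_compl_iff, not_mem_clu]
  refine ⟨ε / 2, half_pos hε, ?_⟩
  filter_upwards [h] with i hi z hz
  apply hi
  rw [Metric.mem_ball] at hy hz ⊢
  calc dist z x ≤ dist z y + dist y x := dist_triangle _ _ _
    _ < ε / 2 + ε / 2 := add_lt_add hz hy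
    _ = ε := by ring

theorem clu_compact_eventually {q : ℕ → V → ℂ} {K : Set V} (hK : IsCompact K)
    (h : ∀ x ∈ K, x ∉ Clu q) : ∀ᶠ i in atTop, ∀ z ∈ K, q i z ≠ 0 := by
  have h1 : ∀ x : V, ∃ ε > 0, x ∈ K → ∀ᶠ i in atTop, ∀ z ∈ Metric.ball x ε, q i z ≠ 0 := by
    intro x
    by_cases hx : x ∈ K
    · obtain ⟨ε, hε, h2⟩ := not_mem_clu.1 (h x hx)
      exact ⟨ε, hε, fun _ => h2⟩
    · exact ⟨1, one_pos, fun h3 => absurd h3 hx⟩
  choose ε hε h2 using h1
  obtain ⟨t, htK, hcov⟩ := hK.elim_nhds_subcover (fun x => Metric.ball x (ε x))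
    (fun x _ => Metric.ball_mem_nhds x (hε x))
  have h3 : ∀ᶠ i in atTop, ∀ x ∈ t, ∀ z ∈ Metric.ball x (ε x), q i z ≠ 0 := by
    rw [Filter.eventually_all_finset]
    intro x hx
    exact h2 x (htK x hx)
  filter_upwards [h3] with i hi z hz
  have h4 := hcov hz
  simp only [mem_iUnion] at h4
  obtain ⟨x, hx, hzx⟩ := h4
  exact hi x hx z hzx

theorem clu_single (q : ℕ → V → ℂ) (hq : ∀ i, Differentiable ℂ (q i)) (G : Set V) (hG : IsOpen G)
    (M : Set V) (hpk : ∀ x0 ∈ M, x0 ∈ G → PeakAt M x0)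
    (hsub : ∀ x ∈ Clu q, x ∈ G → x ∈ M) : ∀ x ∈ Clu q, x ∉ G := by
  intro x0 hx0 hx0G
  have : ProperSpace V := FiniteDimensional.proper ℂ V
  obtain ⟨r, hr, hrG⟩ := Metric.nhds_basis_closedBall.mem_iff.1 (hG.mem_nhds hx0G)
  obtain ⟨P, e, v, hP, hPe, hv, hve, hpeak⟩ := hpk x0 (hsub x0 hx0 hx0G) hx0G r hr
  have hPc : Continuous (fun x => (P x).re) := Complex.continuous_re.comp hP.continuous
  -- gap
  have hgap : ∃ η > 0, ∀ x ∈ Clu q, ‖x - x0‖ = r → (P x).re < (P x0).re - η := by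
    have hcomp : IsCompact (Clu q ∩ Metric.sphere x0 r) :=
      (isCompact_sphere x0 r).inter_left (isClosed_clu q)
    rcases (Clu q ∩ Metric.sphere x0 r).eq_empty_or_nonempty with he | hne
    · refine ⟨1, one_pos, fun x hx hxr => ?_⟩
      have : x ∈ Clu q ∩ Metric.sphere x0 r := ⟨hx, by rw [mem_sphere_iff_norm]; exact hxr⟩
      rw [he] at this
      exact absurd this (notMem_empty x)
    · obtain ⟨m, hm, hmax⟩ := hcomp.exists_isMaxOn hne hPc.continuousOn
      have hmr : ‖m - x0‖ = r := by rw [← mem_sphere_iff_norm]; exact hm.2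
      have hmG : m ∈ G := hrG (by rw [mem_closedBall_iff_norm]; exact hmr.le)
      have hlt := hpeak m (hsub m hm.1 hmG) hmr
      refine ⟨((P x0).re - (P m).re) / 2, by linarith, fun x hx hxr => ?_⟩
      have h1 : (P x).re ≤ (P m).re := hmax ⟨hx, by rw [mem_sphere_iff_norm]; exact hxr⟩
      linarith
  obtain ⟨η, hη, hgap⟩ := hgap
  set S' : Set V := {x | x ∈ Metric.sphere x0 r ∧ (P x0).re - η ≤ (P x).re} with hS'
  have hS'c : IsCompact S' := by
    refine (isCompact_sphere x0 r).of_isClosed_subset ?_ (fun x hx => hx.1)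
    exact Metric.isClosed_sphere.inter (isClosed_le continuous_const hPc)
  have hev : ∀ᶠ i in atTop, ∀ z ∈ S', q i z ≠ 0 := by
    apply clu_compact_eventually hS'c
    intro x hx hxq
    have h1 := hgap x hxq (by rw [← mem_sphere_iff_norm]; exact hx.1)
    exact absurd hx.2 (not_le.2 h1)
  have hnear : {x | (P x0).re - η < (P x).re} ∈ 𝓝 x0 := by
    apply (isOpen_lt continuous_const hPc).mem_nhds
    simp only [mem_ofPred_eq]; linarith
  obtain ⟨ε, hε, hεs⟩ := Metric.mem_nhds_iff.1 hnear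
  have hfr := hx0 (min ε r) (lt_min hε hr)
  obtain ⟨i, ⟨z, hz, hqz⟩, hi⟩ := (hfr.and_eventually hev).exists
  have hz1 : z ∈ Metric.ball x0 ε := Metric.ball_subset_ball (min_le_left _ _) hz
  have hz2 : z ∈ Metric.ball x0 r := Metric.ball_subset_ball (min_le_right _ _) hz
  obtain ⟨y', hy', hqy', hle⟩ := lmp (q i) P (hq i) hP e v hPe hv hve (Metric.ball x0 r)
    Metric.isOpen_ball Metric.isBounded_ball z hz2 hqz
  rw [frontier_ball x0 hr.ne'] at hy'
  have h5 : (P x0).re - η < (P z).re := hεs hz1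
  exact hi y' ⟨hy', by linarith⟩ hqy'

theorem clu_finite {ι : Type*} (q : ℕ → V → ℂ) (hq : ∀ i, Differentiable ℂ (q i))
    (M : ι → Set V) (s : Finset ι) (hM : ∀ k ∈ s, IsClosed (M k)) :
    ∀ (G : Set V), IsOpen G → (∀ k ∈ s, ∀ x0 ∈ M k, x0 ∈ G → PeakAt (M k) x0) →
    (∀ x ∈ Clu q, x ∈ G → ∃ k ∈ s, x ∈ M k) → ∀ x ∈ Clu q, x ∉ G := by
  classical
  induction s using Finset.induction_on with
  | empty =>
    intro G hG _ hsub x hx hxG
    obtain ⟨k, hk, _⟩ := hsub x hx hxG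
    exact absurd hk (Finset.notMem_empty k)
  | insert a s ha ih =>
    intro G hG hpk hsub
    have h1 : ∀ x ∈ Clu q, x ∉ G \ M a := by
      apply ih (fun k hk => hM k (Finset.mem_insert_of_mem hk)) (G \ M a)
        (hG.sdiff (hM a (Finset.mem_insert_self _ _)))
      · intro k hk x0 hx0 hx0G
        exact hpk k (Finset.mem_insert_of_mem hk) x0 hx0 hx0G.1
      · intro x hx hxG
        obtain ⟨k, hk, hxk⟩ := hsub x hx hxG.1
        rcases Finset.mem_insert.1 hk with rfl | hk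
        · exact absurd hxk hxG.2
        · exact ⟨k, hk, hxk⟩
    apply clu_single q hq G hG (M a) (hpk a (Finset.mem_insert_self _ _))
    intro x hx hxG
    by_contra hxa
    exact h1 x hx ⟨hxG, hxa⟩

end Pool.Agent.H83.CH
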