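import Mathlib
import Pool.Agent.H83.CH.HL

/-!
# The touch set, cones, good sets
-/

set_option autoImplicit false
set_option linter.unusedSectionVars false

open Set Filter Topology

namespace Pool.Agent.H83.CH

variable {V : Type*} [NormedAddCommGroup V] [InnerProductSpace ℂ V] [FiniteDimensional ℂ V]

/-- `x` is a limit of zeros of entire functions without zeros on compact parts of `interior Y`. -/
def touch (Y : Set V) : Set V :=
  {x | ∀ K : Set V, IsCompact K → K ⊆ interior Y → ∀ ε > 0, ∃ q : V → ℂ,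
    Differentiable ℂ q ∧ (∀ z ∈ K, q z ≠ 0) ∧ ∃ z ∈ Metric.ball x ε, q z = 0}

/-- the cone over `Y` with vertex `0` -/
def cone (Y : Set V) : Set V := {x | ∃ y ∈ Y, ∃ r : ℝ, 0 ≤ r ∧ r ≤ 1 ∧ x = (r : ℂ) • y}

structure Good (Y : Set V) : Prop where
  compact : IsCompact Y
  sub : ∀ x ∈ Y, ‖x‖ ≤ 1
  zero_mem : (0 : V) ∈ interior Y
  half : ∀ x ∈ touch Y, 1 / 2 < ‖x‖
  star : ∃ O : Set V, IsOpen O ∧ (∀ x ∈ cone Y, x ∈ touch Y → x ∈ O) ∧
    ∀ y ∈ Y, ∀ r : ℝ, 0 < r → r < 1 → (r : ℂ) • y ∈ O → (r : ℂ) • y ∈ interior Y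

theorem isClosed_touch (Y : Set V) : IsClosed (touch Y) := by
  apply isClosed_of_closure_subset
  intro x hx K hK hKY ε hε
  rw [Metric.mem_closure_iff] at hx
  obtain ⟨y, hy, hxy⟩ := hx (ε / 2) (half_pos hε)
  obtain ⟨q, hq, hqK, z, hz, hqz⟩ := hy K hK hKY (ε / 2) (half_pos hε)
  refine ⟨q, hq, hqK, z, ?_, hqz⟩
  rw [Metric.mem_ball] at hz ⊢
  calc dist z x ≤ dist z y + dist y x := dist_triangle _ _ _
    _ < ε / 2 + ε / 2 := by
      rw [dist_comm y x]
      exact add_lt_add hz hxy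
    _ = ε := by ring

theorem touch_not_interior {Y : Set V} {x : V} (hx : x ∈ touch Y) : x ∉ interior Y := by
  intro hxi
  have : ProperSpace V := FiniteDimensional.proper ℂ V
  obtain ⟨r, hr, hrY⟩ := Metric.nhds_basis_closedBall.mem_iff.1 (isOpen_interior.mem_nhds hxi)
  obtain ⟨q, hq, hqK, z, hz, hqz⟩ := hx (Metric.closedBall x r) (isCompact_closedBall x r) hrY r hr
  exact hqK z (Metric.ball_subset_closedBall hz) hqz

theorem mem_touch_of_zero {Y : Set V} {q : V → ℂ} (hq : Differentiable ℂ q)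
    (hqY : ∀ y ∈ Y, q y ≠ 0) {x : V} (hx : q x = 0) : x ∈ touch Y := by
  intro K _ hKY ε hε
  exact ⟨q, hq, fun z hz => hqY z (interior_subset (hKY hz)), x, Metric.mem_ball_self hε, hx⟩

theorem good_base : Good (Metric.closedBall (0 : V) 1) := by
  have : ProperSpace V := FiniteDimensional.proper ℂ V
  have hint : ∀ x : V, ‖x‖ < 1 → x ∈ interior (Metric.closedBall (0 : V) 1) := by
    intro x hx
    apply interior_mono Metric.ball_subset_closedBall
    rw [Metric.isOpen_ball.interior_eq]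
    simpa using hx
  refine ⟨isCompact_closedBall _ _, fun x hx => by simpa using hx, hint 0 (by simp), ?_, univ,
    isOpen_univ, fun _ _ _ => mem_univ _, ?_⟩
  · intro x hx
    by_contra h
    exact touch_not_interior hx (hint x (by linarith))
  · intro y hy r hr0 hr1 _
    apply hint
    rw [norm_smul, Complex.norm_real, Real.norm_eq_abs, abs_of_pos hr0]
    have hy1 : ‖y‖ ≤ 1 := by simpa using hy
    nlinarith [norm_nonneg y]

theorem Good.noZero {Y : Set V} (hY : Good Y) {q : V → ℂ} (hq : Differentiable ℂ q)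
    (hqY : ∀ y ∈ Y, q y ≠ 0) : (∀ x ∈ cone Y, q x ≠ 0) ∧ ∀ x : V, ‖x‖ ≤ 1 / 2 → q x ≠ 0 := by
  have h2 : ∀ x : V, ‖x‖ ≤ 1 / 2 → q x ≠ 0 := by
    intro x hx h0
    have := hY.half x (mem_touch_of_zero hq hqY h0)
    linarith
  refine ⟨?_, h2⟩
  intro x hx h0
  have hxt := mem_touch_of_zero hq hqY h0
  obtain ⟨O, hO, hO1, hO2⟩ := hY.star
  have hxO := hO1 x hx hxt
  obtain ⟨y, hy, r, hr0, hr1, rfl⟩ := hx
  rcases eq_or_lt_of_le hr0 with h | hr0
  · rw [← h] at h0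
    simp only [Complex.ofReal_zero, zero_smul] at h0
    exact h2 0 (by simp) h0
  rcases eq_or_lt_of_le hr1 with h | hr1
  · rw [h] at h0
    simp only [Complex.ofReal_one, one_smul] at h0
    exact hqY y hy h0
  exact touch_not_interior hxt (hO2 y hy r hr0 hr1 hxO)

theorem isCompact_cone {Y : Set V} (hY : IsCompact Y) : IsCompact (cone Y) := by
  have h1 : cone Y = (fun p : ℝ × V => (p.1 : ℂ) • p.2) '' (Icc (0 : ℝ) 1 ×ˢ Y) := by
    ext x
    constructor
    · rintro ⟨y, hy, r, hr0, hr1, rfl⟩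
      exact ⟨(r, y), ⟨⟨hr0, hr1⟩, hy⟩, rfl⟩
    · rintro ⟨⟨r, y⟩, ⟨⟨hr0, hr1⟩, hy⟩, rfl⟩
      exact ⟨y, hy, r, hr0, hr1, rfl⟩
  rw [h1]
  apply (isCompact_Icc.prod hY).image
  fun_prop

theorem cone_mono {Y Z : Set V} (h : ∀ x ∈ Y, x ∈ Z) : ∀ x ∈ cone Y, x ∈ cone Z := by
  rintro x ⟨y, hy, r, hr0, hr1, rfl⟩
  exact ⟨y, h y hy, r, hr0, hr1, rfl⟩

/-- the stability of the touch set -/
theorem touch_stab {ι : Type*} (Y : Set V) (Y' : ℝ → Set V) (hcl : ∀ t, IsClosed (Y' t))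
    (hsub : ∀ t, ∀ x ∈ Y' t, ‖x‖ ≤ 1) (M : ι → Set V) (s : Finset ι)
    (hMc : ∀ k ∈ s, IsClosed (M k)) (hpk : ∀ k ∈ s, ∀ x ∈ M k, PeakAt (M k) x)
    (hint : ∀ x ∈ interior Y, (∀ k ∈ s, x ∉ M k) → ∃ δ > 0, ∀ t, 0 < t → t < δ →
      Metric.ball x δ ⊆ Y' t)
    (T : Set V) (hT : IsCompact T) (hTY : ∀ x ∈ T, x ∉ touch Y) :
    ∃ t0 > 0, ∀ t, 0 < t → t < t0 → ∀ x ∈ touch (Y' t), x ∉ T := by
  have : ProperSpace V := FiniteDimensional.proper ℂ V
  by_contra hcon
  push Not at hcon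
  have h1 : ∀ n : ℕ, ∃ t : ℝ, 0 < t ∧ t < 1 / ((n : ℝ) + 1) ∧ ∃ x ∈ touch (Y' t), x ∈ T := by
    intro n
    exact hcon (1 / ((n : ℝ) + 1)) (by positivity)
  choose t ht0 ht1 x hxt hxT using h1
  set K : ℕ → Set V := fun n => {z | Metric.closedBall z (1 / ((n : ℝ) + 1)) ⊆ Y' (t n)} with hK
  have hρ : ∀ n : ℕ, (0 : ℝ) < 1 / ((n : ℝ) + 1) := fun n => by positivity
  have hKsub : ∀ n, K n ⊆ interior (Y' (t n)) := by
    intro n z hz
    exact mem_interior_iff_mem_nhds.2 (mem_of_superset (Metric.closedBall_mem_nhds z (hρ n)) hz)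
  have hKclosed : ∀ n, IsClosed (K n) := by
    intro n
    have h2 : K n = ⋂ w ∈ Metric.closedBall (0 : V) (1 / ((n : ℝ) + 1)),
        (fun z => z + w) ⁻¹' (Y' (t n)) := by
      ext z
      simp only [hK, mem_ofPred_eq, mem_iInter, mem_preimage]
      constructor
      · intro h w hw
        apply h
        rw [mem_closedBall_iff_norm, add_sub_cancel_left]
        simpa using hw
      · intro h u hu
        have := h (u - z) (by rw [mem_closedBall_iff_norm] at hu; simpa using hu)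
        rwa [add_sub_cancel] at this
    rw [h2]
    apply isClosed_biInter
    intro w _
    exact (hcl (t n)).preimage (continuous_id.add continuous_const)
  have hKc : ∀ n, IsCompact (K n) := by
    intro n
    refine (isCompact_closedBall (0 : V) 1).of_isClosed_subset (hKclosed n) ?_
    intro z hz
    rw [mem_closedBall_zero_iff]
    exact hsub (t n) z (interior_subset (hKsub n hz))
  have h3 : ∀ n, ∃ q : V → ℂ, Differentiable ℂ q ∧ (∀ z ∈ K n, q z ≠ 0) ∧
      ∃ z ∈ Metric.ball (x n) (1 / ((n : ℝ) + 1)), q z = 0 := fun n =>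
    hxt n (K n) (hKc n) (hKsub n) _ (hρ n)
  choose q hq hqK z hz hqz using h3
  have htend : Tendsto (fun n : ℕ => 1 / ((n : ℝ) + 1)) atTop (𝓝 0) :=
    tendsto_one_div_add_atTop_nhds_zero_nat
  -- cluster set meets interior Y only in walls
  have h4 : ∀ y ∈ Clu q, y ∈ interior Y → ∃ k ∈ s, y ∈ M k := by
    intro y hy hyi
    by_contra hno
    push Not at hno
    obtain ⟨δ, hδ, h5⟩ := hint y hyi hno
    apply not_mem_clu.2 _ hy
    refine ⟨δ / 2, half_pos hδ, ?_⟩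
    have h6 : ∀ᶠ n : ℕ in atTop, 1 / ((n : ℝ) + 1) < δ / 2 :=
      htend.eventually (gt_mem_nhds (half_pos hδ))
    filter_upwards [h6] with n hn w hw
    apply hqK n
    intro u hu
    apply h5 (t n) (ht0 n) (by linarith [ht1 n])
    rw [Metric.mem_ball] at hw ⊢
    rw [Metric.mem_closedBall] at hu
    calc dist u y ≤ dist u w + dist w y := dist_triangle _ _ _
      _ < δ / 2 + δ / 2 := by linarith
      _ = δ := by ring
  have h5 : ∀ y ∈ Clu q, y ∉ interior Y :=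
    clu_finite q hq M s hMc (interior Y) isOpen_interior
      (fun k hk x0 hx0 _ => hpk k hk x0 hx0) h4
  -- cluster point in T
  obtain ⟨y, hyT, φ, hφ, hφlim⟩ := hT.tendsto_subseq hxT
  have h6 : ∀ ε > 0, ∃ᶠ i in atTop, ∃ w ∈ Metric.ball y ε, q i w = 0 := by
    intro ε hε
    have e1 : ∀ᶠ n in atTop, dist (x (φ n)) y < ε / 2 :=
      (Metric.tendsto_nhds.1 hφlim) (ε / 2) (half_pos hε)
    have e2 : ∀ᶠ n in atTop, 1 / (((φ n : ℕ) : ℝ) + 1) < ε / 2 :=
      (htend.comp hφ.tendsto_atTop).eventually (gt_mem_nhds (half_pos hε))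
    have e3 : ∀ᶠ n in atTop, ∃ w ∈ Metric.ball y ε, q (φ n) w = 0 := by
      filter_upwards [e1, e2] with n h1 h2
      refine ⟨z (φ n), ?_, hqz (φ n)⟩
      have h3 := hz (φ n)
      rw [Metric.mem_ball] at h3 ⊢
      calc dist (z (φ n)) y ≤ dist (z (φ n)) (x (φ n)) + dist (x (φ n)) y := dist_triangle _ _ _
        _ < ε / 2 + ε / 2 := by linarith
        _ = ε := by ring
    exact hφ.tendsto_atTop.frequently e3.frequently
  apply hTY y hyT
  intro K' hK' hK'Y ε hε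
  have e1 : ∀ᶠ i in atTop, ∀ z ∈ K', q i z ≠ 0 :=
    clu_compact_eventually hK' (fun x hx hxq => h5 x hxq (hK'Y hx))
  obtain ⟨i, ⟨w, hw, hqw⟩, hi⟩ := ((h6 ε hε).and_eventually e1).exists
  exact ⟨q i, hq i, hi, w, hw, hqw⟩

end Pool.Agent.H83.CH
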