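import Mathlib
import Pool.Agent.H83.CH.HL

/-!
# Walls: spheres and wide real cones have peak functions
-/

set_option autoImplicit false
set_option linter.unusedSectionVars false

open Set Filter Topology

namespace Pool.Agent.H83.CH

variable {V : Type*} [NormedAddCommGroup V] [InnerProductSpace ℂ V] [FiniteDimensional ℂ V]

/-- spheres -/
theorem peak_sphere (hperp : ∀ a : V, ∃ e : V, ‖e‖ = 1 ∧ inner ℂ a e = 0) (c : ℝ) (hc : 0 < c)
    (x0 : V) (hx0 : ‖x0‖ = c) : PeakAt {x : V | ‖x‖ = c} x0 := by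
  intro r hr
  obtain ⟨v, hv1, hv⟩ := hperp x0
  refine ⟨fun x => ((c ^ 2 : ℝ) : ℂ)⁻¹ * inner ℂ x0 x, x0, v, ?_, ?_, ?_, ?_, ?_⟩
  · have h1 : Differentiable ℂ (fun x : V => inner ℂ x0 x) := (innerSL ℂ x0).differentiable
    exact h1.const_mul _
  · intro x ζ
    simp only [inner_add_right, inner_smul_right, inner_self_eq_norm_sq_to_K, hx0]
    have h1 : (RCLike.ofReal c : ℂ) ^ 2 = (((c ^ 2 : ℝ)) : ℂ) := by push_cast; rfl
    have h2 : (((c ^ 2 : ℝ)) : ℂ) ≠ 0 := Complex.ofReal_ne_zero.2 (by positivity)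
    rw [h1]
    field_simp
  · intro h
    rw [h, norm_zero] at hv1
    exact zero_ne_one hv1
  · rw [← inner_conj_symm, hv, map_zero]
  · intro x hx hxr
    simp only [mem_ofPred_eq] at hx
    have h1 : ‖x - x0‖ ^ 2 = ‖x‖ ^ 2 - 2 * (inner ℂ x x0).re + ‖x0‖ ^ 2 :=
      @norm_sub_sq ℂ V _ _ _ x x0
    rw [hxr, hx, hx0] at h1
    have h2 : (inner ℂ x x0).re = (inner ℂ x0 x).re := by
      rw [← inner_conj_symm, Complex.conj_re]
    have h4 : ∀ y : V, (((c ^ 2 : ℝ) : ℂ)⁻¹ * inner ℂ x0 y).re = (c ^ 2)⁻¹ * (inner ℂ x0 y).re := by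
      intro y
      rw [← Complex.ofReal_inv, Complex.re_ofReal_mul]
    have h5 : (inner ℂ x0 x0).re = c ^ 2 := by
      have := @inner_self_eq_norm_sq ℂ V _ _ _ x0
      rw [hx0] at this
      exact this
    rw [h4, h4, h5]
    have h6 : (inner ℂ x0 x).re < c ^ 2 := by
      nlinarith [pow_pos hr 2]
    exact mul_lt_mul_of_pos_left h6 (by positivity)

theorem isClosed_sphere' (c : ℝ) : IsClosed {x : V | ‖x‖ = c} :=
  isClosed_eq continuous_norm continuous_const

/-- the cone walls -/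
def coneWall (a : V) (κ c0 : ℝ) : Set V := {x | (inner ℂ a x).re = κ * ‖x‖ ∧ c0 ≤ ‖x‖}

theorem isClosed_coneWall (a : V) (κ c0 : ℝ) : IsClosed (coneWall a κ c0) := by
  apply IsClosed.inter
  · exact isClosed_eq (Complex.continuous_re.comp (continuous_const.inner continuous_id))
      (continuous_const.mul continuous_norm)
  · exact isClosed_le continuous_const continuous_norm

theorem peak_cone (hperp : ∀ a : V, ∃ e : V, ‖e‖ = 1 ∧ inner ℂ a e = 0) (a : V) (ha : ‖a‖ = 1)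
    (κ c0 : ℝ) (hκ : 1 / 2 < κ ^ 2) (x0 : V) (hx0 : x0 ∈ coneWall a κ c0) :
    PeakAt (coneWall a κ c0) x0 := by
  intro r hr
  obtain ⟨e1, he1, hae⟩ := hperp a
  set lam : ℝ := κ ^ 2 with hlam
  set w0 : ℂ := inner ℂ a x0 with hw0
  set B : ℝ := (1 / 2) * (lam - 1 / 2) * r with hB
  have hBpos : 0 < B := by
    have : 0 < lam - 1 / 2 := by linarith
    positivity
  -- choice of delta
  have hδ : ∃ δ : ℝ, 0 < δ ∧ δ < B ∧ (lam : ℂ) * inner ℂ x0 e1 + (δ : ℂ) ≠ 0 := by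
    by_cases h : (lam : ℂ) * inner ℂ x0 e1 + ((B / 2 : ℝ) : ℂ) = 0
    · refine ⟨B / 3, by linarith, by linarith, ?_⟩
      intro h'
      have h1 : ((B / 2 : ℝ) : ℂ) = ((B / 3 : ℝ) : ℂ) := by
        have := h.trans h'.symm
        exact add_left_cancel this
      have h2 : B / 2 = B / 3 := Complex.ofReal_injective h1
      linarith
    · exact ⟨B / 2, by linarith, by linarith, h⟩
  obtain ⟨δ, hδ0, hδB, hτ⟩ := hδ
  set τ : ℂ := (lam : ℂ) * inner ℂ x0 e1 + (δ : ℂ) with hτdef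
  set P : V → ℂ := fun x => (lam : ℂ) * inner ℂ x0 x - (1 / 4) * (inner ℂ a x) ^ 2
    - (1 / 2) * ((starRingEnd ℂ) w0 * inner ℂ a x) + (δ : ℂ) * inner ℂ e1 x with hP
  have hin : ∀ b : V, Differentiable ℂ (fun x : V => inner ℂ b x) := fun b =>
    (innerSL ℂ b).differentiable
  refine ⟨P, τ⁻¹ • e1, a, ?_, ?_, ?_, ?_, ?_⟩
  · simp only [hP]
    have := hin x0
    have := hin a
    have := hin e1
    fun_prop
  · intro x c
    simp only [hP, inner_add_right, inner_smul_right, hae, inner_self_eq_norm_sq_to_K, he1]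
    have : (RCLike.ofReal (1 : ℝ) : ℂ) = 1 := by norm_num
    rw [this]
    have h1 : c * (τ⁻¹ * ((lam : ℂ) * inner ℂ x0 e1 + (δ : ℂ))) = c := by
      rw [← hτdef, inv_mul_cancel₀ hτ, mul_one]
    linear_combination h1
  · intro h
    rw [h, norm_zero] at ha
    exact zero_ne_one ha
  · rw [inner_smul_right, hae, mul_zero]
  · intro x hx hxr
    -- main computation
    have hmain : ∀ y ∈ coneWall a κ c0, 2 * ((lam : ℂ) * inner ℂ x0 y - (1 / 4) * (inner ℂ a y) ^ 2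
        - (1 / 2) * ((starRingEnd ℂ) w0 * inner ℂ a y)).re =
        - (lam * ‖y - x0‖ ^ 2 - 1 / 2 * ‖inner ℂ a y - w0‖ ^ 2) + (lam * ‖x0‖ ^ 2 - 1 / 2 * ‖w0‖ ^ 2) := by
      intro y hy
      have h1 : ‖y - x0‖ ^ 2 = ‖y‖ ^ 2 - 2 * (inner ℂ x0 y).re + ‖x0‖ ^ 2 := by
        have := @norm_sub_sq ℂ V _ _ _ y x0
        rw [this]
        have h2 : RCLike.re (inner ℂ y x0) = (inner ℂ x0 y).re := by
          rw [← inner_conj_symm]
          exact Complex.conj_re _
        rw [h2]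
      have h2 : (inner ℂ a y).re ^ 2 = lam * ‖y‖ ^ 2 := by
        rw [hy.1, hlam]; ring
      rw [h1]
      set w : ℂ := inner ℂ a y with hw
      have h3 : ‖w - w0‖ ^ 2 = (w.re - w0.re) ^ 2 + (w.im - w0.im) ^ 2 := by
        rw [← Complex.normSq_eq_norm_sq, Complex.normSq_apply]
        simp only [Complex.sub_re, Complex.sub_im]; ring
      have h4 : ‖w0‖ ^ 2 = w0.re ^ 2 + w0.im ^ 2 := by
        rw [← Complex.normSq_eq_norm_sq, Complex.normSq_apply]; ring
      rw [h3, h4]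
      have h5 : ((lam : ℂ) * inner ℂ x0 y - (1 / 4) * w ^ 2 - (1 / 2) * ((starRingEnd ℂ) w0 * w)).re
          = lam * (inner ℂ x0 y).re - (1 / 4) * (w.re ^ 2 - w.im ^ 2)
            - (1 / 2) * (w0.re * w.re + w0.im * w.im) := by
        have e1 : ((1 : ℂ) / 4) = (((1 / 4 : ℝ)) : ℂ) := by push_cast; ring
        have e2 : ((1 : ℂ) / 2) = (((1 / 2 : ℝ)) : ℂ) := by push_cast; ring
        rw [e1, e2]
        simp only [Complex.sub_re, pow_two, Complex.mul_re, Complex.conj_re,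
          Complex.conj_im, Complex.ofReal_re, Complex.ofReal_im, zero_mul, sub_zero]
        ring
      rw [h5]
      linear_combination (-1 : ℝ) * h2
    have hx1 := hmain x hx
    have hx2 := hmain x0 hx0
    rw [sub_self, norm_zero] at hx2
    have hww : inner ℂ a x0 - w0 = 0 := by rw [hw0, sub_self]
    rw [hww, norm_zero] at hx2
    have h6 : ‖inner ℂ a x - w0‖ ≤ ‖x - x0‖ := by
      rw [hw0, ← inner_sub_right]
      calc ‖inner ℂ a (x - x0)‖ ≤ ‖a‖ * ‖x - x0‖ := norm_inner_le_norm _ _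
        _ = ‖x - x0‖ := by rw [ha, one_mul]
    have h7 : ‖inner ℂ a x - w0‖ ^ 2 ≤ r ^ 2 := by
      rw [← hxr]
      exact pow_le_pow_left₀ (norm_nonneg _) h6 2
    have h8 : (inner ℂ e1 x).re - (inner ℂ e1 x0).re ≤ r := by
      rw [← Complex.sub_re, ← inner_sub_right]
      calc (inner ℂ e1 (x - x0)).re ≤ ‖inner ℂ e1 (x - x0)‖ := Complex.re_le_norm _
        _ ≤ ‖e1‖ * ‖x - x0‖ := norm_inner_le_norm _ _
        _ = r := by rw [he1, one_mul, hxr]
    have h9 : ∀ y : V, (P y).re = ((lam : ℂ) * inner ℂ x0 y - (1 / 4) * (inner ℂ a y) ^ 2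
        - (1 / 2) * ((starRingEnd ℂ) w0 * inner ℂ a y)).re + δ * (inner ℂ e1 y).re := by
      intro y
      simp only [hP]
      rw [Complex.add_re, Complex.re_ofReal_mul]
    rw [h9 x, h9 x0]
    rw [hxr] at hx1
    have h10 : δ * ((inner ℂ e1 x).re - (inner ℂ e1 x0).re) ≤ δ * r :=
      mul_le_mul_of_nonneg_left h8 hδ0.le
    have h11 : δ * r < B * r := mul_lt_mul_of_pos_right hδB hr
    have h12 : B * r = (1 / 2) * (lam - 1 / 2) * r ^ 2 := by rw [hB]; ring
    nlinarith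

end Pool.Agent.H83.CH
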