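import Mathlib
import Pool.Agent.H83.CH.Good
import Pool.Agent.H83.CH.Walls

/-!
# Direction caps, cells and the cut set
-/

set_option autoImplicit false
set_option linter.unusedSectionVars false

open Set Filter Topology

namespace Pool.Agent.H83.CH

variable {V : Type*} [NormedAddCommGroup V] [InnerProductSpace ℂ V] [FiniteDimensional ℂ V]

theorem continuous_inner_re : Continuous (fun p : V × V => (inner ℂ p.1 p.2).re) :=
  Complex.continuous_re.comp (continuous_fst.inner continuous_snd)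

/-- Uniform radial uniqueness. -/
theorem exists_kappa (N : Set V) (hN : IsCompact N) (hN1 : ∀ x ∈ N, ‖x‖ ≤ 1)
    (hN0 : ∀ x ∈ N, x ≠ 0)
    (hrad : ∀ z ∈ N, ∀ ρ : ℝ, 0 < ρ → ρ < 1 → (ρ : ℂ) • z ∉ N) (ε : ℝ) (hε : 0 < ε) :
    ∃ κ0 : ℝ, κ0 < 1 ∧ ∀ κ, κ0 < κ → ∀ a z z' : V, ‖a‖ = 1 → z ∈ N → z' ∈ N →
      κ * ‖z‖ ≤ (inner ℂ a z).re → κ * ‖z'‖ ≤ (inner ℂ a z').re → |‖z‖ - ‖z'‖| < ε := by
  have : ProperSpace V := FiniteDimensional.proper ℂ V
  set T : Set (V × V × V) := {p | p ∈ Metric.sphere (0 : V) 1 ×ˢ N ×ˢ N ∧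
    ε ≤ |‖p.2.1‖ - ‖p.2.2‖|} with hT
  have hTc : IsCompact T := by
    have h1 : IsCompact (Metric.sphere (0 : V) 1 ×ˢ N ×ˢ N) :=
      (isCompact_sphere _ _).prod (hN.prod hN)
    refine h1.of_isClosed_subset ?_ (fun x hx => hx.1)
    have h2 : IsClosed {p : V × V × V | ε ≤ |‖p.2.1‖ - ‖p.2.2‖|} :=
      isClosed_le (by fun_prop) (by fun_prop)
    exact h1.isClosed.inter h2
  set f : V × V × V → ℝ := fun p => min ((inner ℂ p.1 p.2.1).re - ‖p.2.1‖)
    ((inner ℂ p.1 p.2.2).re - ‖p.2.2‖) with hf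
  have hfc : Continuous f := by
    have e1 : Continuous (fun p : V × V × V => (inner ℂ p.1 p.2.1).re) :=
      continuous_inner_re.comp (continuous_fst.prodMk (continuous_fst.comp continuous_snd))
    have e2 : Continuous (fun p : V × V × V => (inner ℂ p.1 p.2.2).re) :=
      continuous_inner_re.comp (continuous_fst.prodMk (continuous_snd.comp continuous_snd))
    exact (e1.sub (by fun_prop)).min (e2.sub (by fun_prop))
  -- equality case
  have heq : ∀ a z : V, ‖a‖ = 1 → ‖z‖ ≤ (inner ℂ a z).re → z = (‖z‖ : ℂ) • a := by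
    intro a z ha hz
    have h1 : ‖z - (‖z‖ : ℂ) • a‖ ^ 2 ≤ 0 := by
      have h2 : ‖z - (‖z‖ : ℂ) • a‖ ^ 2 =
          ‖z‖ ^ 2 - 2 * (inner ℂ z ((‖z‖ : ℂ) • a)).re + ‖(‖z‖ : ℂ) • a‖ ^ 2 :=
        @norm_sub_sq ℂ V _ _ _ z ((‖z‖ : ℂ) • a)
      have h3 : (inner ℂ z ((‖z‖ : ℂ) • a)).re = ‖z‖ * (inner ℂ a z).re := by
        rw [inner_smul_right, Complex.re_ofReal_mul, ← inner_conj_symm, Complex.conj_re]
      have h4 : ‖(‖z‖ : ℂ) • a‖ = ‖z‖ := by
        rw [norm_smul, ha, mul_one, Complex.norm_real, norm_norm]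
      rw [h2, h3, h4]
      nlinarith [norm_nonneg z]
    have h5 : ‖z - (‖z‖ : ℂ) • a‖ = 0 := by
      have := sq_nonneg ‖z - (‖z‖ : ℂ) • a‖
      have h6 : ‖z - (‖z‖ : ℂ) • a‖ ^ 2 = 0 := le_antisymm h1 this
      exact pow_eq_zero_iff (two_ne_zero) |>.1 h6
    exact sub_eq_zero.1 (norm_eq_zero.1 h5)
  have hkey : ∀ a z z' : V, ‖a‖ = 1 → z ∈ N → z' ∈ N → ‖z‖ < ‖z'‖ → ‖z‖ ≤ (inner ℂ a z).re →
      ‖z'‖ ≤ (inner ℂ a z').re → False := by
    intro a z z' ha hz hz' hlt h1 h2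
    have hz0 : 0 < ‖z‖ := norm_pos_iff.2 (hN0 z hz)
    have hz'0 : 0 < ‖z'‖ := norm_pos_iff.2 (hN0 z' hz')
    apply hrad z' hz' (‖z‖ / ‖z'‖) (by positivity) ((div_lt_one hz'0).2 hlt)
    have h3 := heq a z ha h1
    have h4 := heq a z' ha h2
    have h5 : ((‖z‖ / ‖z'‖ : ℝ) : ℂ) • z' = z := by
      rw [h4, h3, smul_smul]
      congr 1
      rw [norm_smul, norm_smul, ha]
      simp only [Complex.norm_real, norm_norm, mul_one]
      push_cast
      have : (‖z'‖ : ℂ) ≠ 0 := Complex.ofReal_ne_zero.2 hz'0.ne'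
      field_simp
    rw [h5]; exact hz
  have hneg : ∀ p ∈ T, f p < 0 := by
    rintro ⟨a, z, z'⟩ ⟨⟨ha, hz, hz'⟩, hd⟩
    simp only [mem_sphere_zero_iff_norm] at ha
    simp only at hz hz' hd
    by_contra hge
    push Not at hge
    simp only [hf, le_min_iff, sub_nonneg] at hge
    rcases lt_trichotomy ‖z‖ ‖z'‖ with h | h | h
    · exact hkey a z z' ha hz hz' h hge.1 hge.2
    · rw [h, sub_self, abs_zero] at hd; linarith
    · exact hkey a z' z ha hz' hz h hge.2 hge.1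
  have hμ : ∃ μ > 0, ∀ p ∈ T, f p ≤ - μ := by
    rcases T.eq_empty_or_nonempty with he | hne
    · exact ⟨1, one_pos, fun p hp => by rw [he] at hp; exact absurd hp (notMem_empty p)⟩
    · obtain ⟨m, hm, hmax⟩ := hTc.exists_isMaxOn hne hfc.continuousOn
      exact ⟨- f m, by linarith [hneg m hm], fun p hp => by
        have : f p ≤ f m := hmax hp
        linarith⟩
  obtain ⟨μ, hμ, hμT⟩ := hμ
  refine ⟨1 - μ, by linarith, ?_⟩
  intro κ hκ a z z' ha hz hz' h1 h2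
  by_contra hge
  push Not at hge
  have hmem : (a, z, z') ∈ T := ⟨⟨by simpa using ha, hz, hz'⟩, hge⟩
  have h3 := hμT _ hmem
  simp only [hf, min_le_iff] at h3
  have hz0 : 0 < ‖z‖ := norm_pos_iff.2 (hN0 z hz)
  have hz'0 : 0 < ‖z'‖ := norm_pos_iff.2 (hN0 z' hz')
  have hz1 := hN1 z hz
  have hz'1 := hN1 z' hz'
  rcases h3 with h3 | h3
  · nlinarith
  · nlinarith

/-- a finite net of directions -/
theorem exists_net (κ : ℝ) (hκ : κ < 1) :
    ∃ (n : ℕ) (a : Fin n → V), (∀ i, ‖a i‖ = 1) ∧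
      ∀ ω : V, ‖ω‖ = 1 → ∃ i, κ < (inner ℂ (a i) ω).re := by
  have : ProperSpace V := FiniteDimensional.proper ℂ V
  have hc : IsCompact (Metric.sphere (0 : V) 1) := isCompact_sphere _ _
  obtain ⟨t, htK, hcov⟩ := hc.elim_nhds_subcover (fun a => {ω : V | κ < (inner ℂ a ω).re}) (by
    intro a ha
    rw [mem_sphere_zero_iff_norm] at ha
    have hop : IsOpen {ω : V | κ < (inner ℂ a ω).re} :=
      isOpen_lt continuous_const (Complex.continuous_re.comp (continuous_const.inner continuous_id))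
    apply hop.mem_nhds
    have h1 : (inner ℂ a a).re = ‖a‖ ^ 2 := @inner_self_eq_norm_sq ℂ V _ _ _ a
    simp only [mem_ofPred_eq]
    rw [h1, ha]; linarith)
  refine ⟨t.card, fun i => (t.equivFin.symm i : V), ?_, ?_⟩
  · intro i
    have := htK _ (t.equivFin.symm i).2
    simpa using this
  · intro ω hω
    have h1 := hcov (show ω ∈ Metric.sphere (0 : V) 1 by simpa using hω)
    simp only [mem_iUnion, mem_ofPred_eq, exists_prop] at h1
    obtain ⟨a, hat, ha⟩ := h1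
    refine ⟨t.equivFin ⟨a, hat⟩, ?_⟩
    simpa using ha

/-- sign -/
noncomputable def sg (b : Bool) : ℝ := if b then 1 else -1

/-- the cone function -/
noncomputable def hh (κ : ℝ) (a x : V) : ℝ := (inner ℂ a x).re - κ * ‖x‖

theorem continuous_hh (κ : ℝ) (a : V) : Continuous (hh κ a) := by
  unfold hh
  exact (Complex.continuous_re.comp (continuous_const.inner continuous_id)).sub
    (continuous_const.mul continuous_norm)

theorem hh_smul (κ : ℝ) (a x : V) (r : ℝ) (hr : 0 ≤ r) : hh κ a ((r : ℂ) • x) = r * hh κ a x := by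
  unfold hh
  rw [inner_smul_right, Complex.re_ofReal_mul, norm_smul, Complex.norm_real, Real.norm_eq_abs,
    abs_of_nonneg hr]
  ring

section cells

variable {n : ℕ} (a : Fin n → V) (κ c0 : ℝ) (C : (Fin n → Bool) → Finset ℝ)

/-- closed shrunken cell -/
def cellF (σ : Fin n → Bool) (t : ℝ) : Set V :=
  {x | c0 + t ≤ ‖x‖ ∧ (∀ j, t * ‖x‖ ^ 2 ≤ sg (σ j) * hh κ (a j) x) ∧
    ∀ c ∈ C σ, t ≤ |‖x‖ - c|}

/-- the strict version, in the variables `(t,x)` -/
def cellW (σ : Fin n → Bool) : Set (ℝ × V) :=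
  {p | c0 + p.1 < ‖p.2‖ ∧ (∀ j, p.1 * ‖p.2‖ ^ 2 < sg (σ j) * hh κ (a j) p.2) ∧
    ∀ c ∈ C σ, p.1 < |‖p.2‖ - c|}

/-- the cut set -/
def cut (Y : Set V) (t : ℝ) : Set V :=
  {x | x ∈ Y ∧ (‖x‖ ≤ c0 - t ∨ ∃ σ, x ∈ cellF a κ c0 C σ t)}

theorem isClosed_cellF (σ : Fin n → Bool) (t : ℝ) : IsClosed (cellF a κ c0 C σ t) := by
  have e1 : IsClosed {x : V | c0 + t ≤ ‖x‖} := isClosed_le (by fun_prop) (by fun_prop)
  have e2 : IsClosed (⋂ j, {x : V | t * ‖x‖ ^ 2 ≤ sg (σ j) * hh κ (a j) x}) := by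
    apply isClosed_iInter
    intro j
    exact isClosed_le (by fun_prop) (continuous_const.mul (continuous_hh κ (a j)))
  have e3 : IsClosed (⋂ c ∈ C σ, {x : V | t ≤ |‖x‖ - c|}) := by
    apply isClosed_biInter
    intro c _
    exact isClosed_le (by fun_prop) (by fun_prop)
  have e4 : cellF a κ c0 C σ t = {x : V | c0 + t ≤ ‖x‖} ∩
      ((⋂ j, {x : V | t * ‖x‖ ^ 2 ≤ sg (σ j) * hh κ (a j) x}) ∩
        (⋂ c ∈ C σ, {x : V | t ≤ |‖x‖ - c|})) := by
    ext x
    simp only [cellF, mem_ofPred_eq, mem_inter_iff, mem_iInter]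
  rw [e4]
  exact e1.inter (e2.inter e3)

theorem isOpen_cellW (σ : Fin n → Bool) : IsOpen (cellW a κ c0 C σ) := by
  have e1 : IsOpen {p : ℝ × V | c0 + p.1 < ‖p.2‖} := isOpen_lt (by fun_prop) (by fun_prop)
  have e2 : IsOpen (⋂ j, {p : ℝ × V | p.1 * ‖p.2‖ ^ 2 < sg (σ j) * hh κ (a j) p.2}) := by
    apply isOpen_iInter_of_finite
    intro j
    exact isOpen_lt (by fun_prop)
      (continuous_const.mul ((continuous_hh κ (a j)).comp continuous_snd))
  have e3 : IsOpen (⋂ c ∈ C σ, {p : ℝ × V | p.1 < |‖p.2‖ - c|}) := by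
    apply isOpen_biInter_finset
    intro c _
    exact isOpen_lt continuous_fst (by fun_prop)
  have e4 : cellW a κ c0 C σ = {p : ℝ × V | c0 + p.1 < ‖p.2‖} ∩
      ((⋂ j, {p : ℝ × V | p.1 * ‖p.2‖ ^ 2 < sg (σ j) * hh κ (a j) p.2}) ∩
        (⋂ c ∈ C σ, {p : ℝ × V | p.1 < |‖p.2‖ - c|})) := by
    ext x
    simp only [cellW, mem_ofPred_eq, mem_inter_iff, mem_iInter]
  rw [e4]
  exact e1.inter (e2.inter e3)

theorem cellW_sub {σ : Fin n → Bool} {t : ℝ} {x : V} (h : (t, x) ∈ cellW a κ c0 C σ) :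
    x ∈ cellF a κ c0 C σ t :=
  ⟨h.1.le, fun j => (h.2.1 j).le, fun c hc => (h.2.2 c hc).le⟩

theorem isClosed_cut {Y : Set V} (hY : IsClosed Y) (t : ℝ) : IsClosed (cut a κ c0 C Y t) := by
  have e1 : IsClosed {x : V | ‖x‖ ≤ c0 - t} := isClosed_le (by fun_prop) (by fun_prop)
  have e2 : IsClosed (⋃ σ, cellF a κ c0 C σ t) :=
    isClosed_iUnion_of_finite (fun σ => isClosed_cellF a κ c0 C σ t)
  have e3 : cut a κ c0 C Y t = Y ∩ ({x : V | ‖x‖ ≤ c0 - t} ∪ ⋃ σ, cellF a κ c0 C σ t) := by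
    ext x
    simp only [cut, mem_ofPred_eq, mem_inter_iff, mem_union, mem_iUnion]
  rw [e3]
  exact hY.inter (e1.union e2)

/-- interior points off the walls survive small cuts -/
theorem cut_off_walls (Y : Set V) (x : V) (hx : x ∈ interior Y) (h1 : ‖x‖ ≠ c0)
    (h2 : ∀ σ, ∀ c ∈ C σ, ‖x‖ ≠ c) (h3 : ∀ j, x ∉ coneWall (a j) κ c0) :
    ∃ δ > 0, ∀ t, 0 < t → t < δ → Metric.ball x δ ⊆ cut a κ c0 C Y t := by
  obtain ⟨r, hr, hrY⟩ := Metric.isOpen_iff.1 isOpen_interior x hx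
  rcases lt_or_gt_of_ne h1 with h1 | h1
  · refine ⟨min r ((c0 - ‖x‖) / 2), lt_min hr (by linarith), ?_⟩
    intro t ht0 ht1 y hy
    refine ⟨interior_subset (hrY (Metric.ball_subset_ball (min_le_left _ _) hy)), Or.inl ?_⟩
    have h4 : dist y x < (c0 - ‖x‖) / 2 := lt_of_lt_of_le (Metric.mem_ball.1 hy) (min_le_right _ _)
    rw [dist_eq_norm] at h4
    have h5 : t < (c0 - ‖x‖) / 2 := lt_of_lt_of_le ht1 (min_le_right _ _)
    have h6 : ‖y‖ ≤ ‖y - x‖ + ‖x‖ := by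
      have := norm_add_le (y - x) x
      rwa [sub_add_cancel] at this
    linarith
  · have hne : ∀ j, hh κ (a j) x ≠ 0 := by
      intro j hj
      apply h3 j
      refine ⟨?_, h1.le⟩
      unfold hh at hj
      linarith
    set σ : Fin n → Bool := fun j => decide (0 < hh κ (a j) x) with hσ
    have hpos : ∀ j, 0 < sg (σ j) * hh κ (a j) x := by
      intro j
      by_cases hj : 0 < hh κ (a j) x
      · have : σ j = true := by simp [hσ, hj]
        rw [this]; simp only [sg, if_true, one_mul]; exact hj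
      · have : σ j = false := by simp [hσ, hj]
        rw [this]
        simp only [sg, Bool.false_eq_true, if_false]
        have := lt_of_le_of_ne (not_lt.1 hj) (hne j)
        linarith
    have hmem : ((0 : ℝ), x) ∈ cellW a κ c0 C σ := by
      refine ⟨by simpa using h1, fun j => by simpa using hpos j, fun c hc => ?_⟩
      simp only
      rw [abs_pos, sub_ne_zero]
      exact h2 σ c hc
    obtain ⟨δ, hδ, hδW⟩ := Metric.isOpen_iff.1 (isOpen_cellW a κ c0 C σ) _ hmem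
    refine ⟨min r δ, lt_min hr hδ, ?_⟩
    intro t ht0 ht1 y hy
    refine ⟨interior_subset (hrY (Metric.ball_subset_ball (min_le_left _ _) hy)),
      Or.inr ⟨σ, cellW_sub a κ c0 C ?_⟩⟩
    apply hδW
    rw [Metric.mem_ball, Prod.dist_eq, max_lt_iff]
    constructor
    · simp only [Real.dist_eq, sub_zero]
      rw [abs_of_pos ht0]
      exact lt_of_lt_of_le ht1 (min_le_right _ _)
    · exact lt_of_lt_of_le (Metric.mem_ball.1 hy) (min_le_right _ _)

end cells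

end Pool.Agent.H83.CH
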