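import Mathlib
import Pool.Agent.H83.CH.Cells

/-!
# The inductive step
-/

set_option autoImplicit false
set_option linter.unusedSectionVars false

open Set Filter Topology

namespace Pool.Agent.H83.CH

variable {V : Type*} [NormedAddCommGroup V] [InnerProductSpace ℂ V] [FiniteDimensional ℂ V]

/-- points of `Y` at distance at least `ε` are separated by a partition of `Y` -/
def Split (ε : ℝ) (Y : Set V) : Prop :=
  ∀ x ∈ Y, ∀ y ∈ Y, ε ≤ ‖x - y‖ → ∃ U W : Set V, IsOpen U ∧ IsOpen W ∧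
    (∀ z ∈ Y, z ∈ U ∨ z ∈ W) ∧ (∀ z, z ∈ U → z ∉ W) ∧ x ∈ U ∧ y ∈ W

theorem dir_close (a x : V) (ha : ‖a‖ = 1) (κ δ : ℝ) (hδ : 0 ≤ δ) (hκ : 2 - 2 * κ ≤ δ ^ 2)
    (hx1 : ‖x‖ ≤ 1) (hx : κ * ‖x‖ ≤ (inner ℂ a x).re) : ‖x - (‖x‖ : ℂ) • a‖ ≤ δ := by
  have h2 : ‖x - (‖x‖ : ℂ) • a‖ ^ 2 =
      ‖x‖ ^ 2 - 2 * (inner ℂ x ((‖x‖ : ℂ) • a)).re + ‖(‖x‖ : ℂ) • a‖ ^ 2 :=
    @norm_sub_sq ℂ V _ _ _ x ((‖x‖ : ℂ) • a)
  have h3 : (inner ℂ x ((‖x‖ : ℂ) • a)).re = ‖x‖ * (inner ℂ a x).re := by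
    rw [inner_smul_right, Complex.re_ofReal_mul, ← inner_conj_symm, Complex.conj_re]
  have h4 : ‖(‖x‖ : ℂ) • a‖ = ‖x‖ := by
    rw [norm_smul, ha, mul_one, Complex.norm_real, norm_norm]
  rw [h3, h4] at h2
  have h5 : ‖x‖ * (κ * ‖x‖) ≤ ‖x‖ * (inner ℂ a x).re :=
    mul_le_mul_of_nonneg_left hx (norm_nonneg x)
  have h6 : ‖x - (‖x‖ : ℂ) • a‖ ^ 2 ≤ δ ^ 2 := by
    have h7 : ‖x - (‖x‖ : ℂ) • a‖ ^ 2 ≤ (2 - 2 * κ) * ‖x‖ ^ 2 := by rw [h2]; nlinarith
    have h8 : (2 - 2 * κ) * ‖x‖ ^ 2 ≤ δ ^ 2 * ‖x‖ ^ 2 :=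
      mul_le_mul_of_nonneg_right hκ (sq_nonneg _)
    have h9 : ‖x‖ ^ 2 ≤ 1 := by nlinarith [norm_nonneg x]
    have h10 : δ ^ 2 * ‖x‖ ^ 2 ≤ δ ^ 2 * 1 := mul_le_mul_of_nonneg_left h9 (sq_nonneg _)
    linarith
  exact (pow_le_pow_iff_left₀ (norm_nonneg _) hδ two_ne_zero).1 h6

section split

variable {n : ℕ} (a : Fin n → V) (κ c0 : ℝ) (C : (Fin n → Bool) → Finset ℝ)

/-- open cell -/
def cellU (σ : Fin n → Bool) : Set V := {z | c0 < ‖z‖ ∧ ∀ j, 0 < sg (σ j) * hh κ (a j) z}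

/-- the outside -/
def cellV (σ : Fin n → Bool) : Set V := {z | ‖z‖ < c0 ∨ ∃ j, sg (σ j) * hh κ (a j) z < 0}

theorem isOpen_cellU (σ : Fin n → Bool) : IsOpen (cellU a κ c0 σ) := by
  have e1 : IsOpen {z : V | c0 < ‖z‖} := isOpen_lt (by fun_prop) (by fun_prop)
  have e2 : IsOpen (⋂ j, {z : V | 0 < sg (σ j) * hh κ (a j) z}) := by
    apply isOpen_iInter_of_finite
    intro j
    exact isOpen_lt (by fun_prop) (continuous_const.mul (continuous_hh κ (a j)))
  have e4 : cellU a κ c0 σ = {z : V | c0 < ‖z‖} ∩ (⋂ j, {z : V | 0 < sg (σ j) * hh κ (a j) z}) := by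
    ext x
    simp only [cellU, mem_ofPred_eq, mem_inter_iff, mem_iInter]
  rw [e4]
  exact e1.inter e2

theorem isOpen_cellV (σ : Fin n → Bool) : IsOpen (cellV a κ c0 σ) := by
  have e1 : IsOpen {z : V | ‖z‖ < c0} := isOpen_lt (by fun_prop) (by fun_prop)
  have e2 : IsOpen (⋃ j, {z : V | sg (σ j) * hh κ (a j) z < 0}) := by
    apply isOpen_iUnion
    intro j
    exact isOpen_lt (continuous_const.mul (continuous_hh κ (a j))) (by fun_prop)
  have e4 : cellV a κ c0 σ = {z : V | ‖z‖ < c0} ∪ (⋃ j, {z : V | sg (σ j) * hh κ (a j) z < 0}) := by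
    ext x
    simp only [cellV, mem_ofPred_eq, mem_union, mem_iUnion]
  rw [e4]
  exact e1.union e2

theorem cellU_not_V (σ : Fin n → Bool) (z : V) (hz : z ∈ cellU a κ c0 σ) :
    z ∉ cellV a κ c0 σ := by
  rintro (h | ⟨j, hj⟩)
  · linarith [hz.1]
  · linarith [hz.2 j]

theorem cellF_sub_U (σ : Fin n → Bool) (t : ℝ) (ht : 0 < t) (hc0 : 0 < c0) (z : V)
    (hz : z ∈ cellF a κ c0 C σ t) : z ∈ cellU a κ c0 σ := by
  have h1 := hz.1
  refine ⟨by linarith, fun j => lt_of_lt_of_le ?_ (hz.2.1 j)⟩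
  have : 0 < ‖z‖ := by linarith
  positivity

theorem sg_ne {b b' : Bool} (h : b ≠ b') : sg b = - sg b' := by
  cases b <;> cases b' <;> simp [sg] at *

theorem cellF_sub_V (σ σ' : Fin n → Bool) (hne : σ ≠ σ') (t : ℝ) (ht : 0 < t) (hc0 : 0 < c0)
    (z : V) (hz : z ∈ cellF a κ c0 C σ' t) : z ∈ cellV a κ c0 σ := by
  obtain ⟨j, hj⟩ := Function.ne_iff.1 hne
  refine Or.inr ⟨j, ?_⟩
  have h1 := (cellF_sub_U a κ c0 C σ' t ht hc0 z hz).2 j
  rw [sg_ne hj]
  linarith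

theorem cut_cover (Y : Set V) (σ : Fin n → Bool) (t : ℝ) (ht : 0 < t) (hc0 : 0 < c0) (z : V)
    (hz : z ∈ cut a κ c0 C Y t) : z ∈ cellF a κ c0 C σ t ∨ z ∈ cellV a κ c0 σ := by
  rcases hz.2 with h | ⟨σ', h⟩
  · exact Or.inr (Or.inl (by linarith))
  · by_cases hσ : σ = σ'
    · rw [hσ]; exact Or.inl h
    · exact Or.inr (cellF_sub_V a κ c0 C σ σ' hσ t ht hc0 z h)

theorem split_cut (Y : Set V) (hY1 : ∀ x ∈ Y, ‖x‖ ≤ 1) (ε t : ℝ) (hε : 0 < ε) (ht : 0 < t)
    (hc0 : 0 < c0) (hc0ε : c0 ≤ ε / 16) (ha : ∀ i, ‖a i‖ = 1)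
    (hnet : ∀ ω : V, ‖ω‖ = 1 → ∃ i, κ < (inner ℂ (a i) ω).re) (hκ : 2 - 2 * κ ≤ (ε / 8) ^ 2)
    (hC : ∀ σ, (∃ j, σ j = true) → ∀ r s : ℝ, 0 < r → s ≤ 1 → r + ε / 2 ≤ s →
      ∃ c ∈ C σ, r < c ∧ c < s) : Split ε (cut a κ c0 C Y t) := by
  intro x hx y hy hxy
  have hx1 := hY1 x hx.1
  have hy1 := hY1 y hy.1
  rcases hx.2 with hxs | ⟨σ, hxσ⟩
  · rcases hy.2 with hys | ⟨σ', hyσ⟩
    · exfalso
      have := norm_sub_le x y
      linarith
    · refine ⟨{z | ‖z‖ < c0}, {z | c0 < ‖z‖}, isOpen_lt (by fun_prop) (by fun_prop),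
        isOpen_lt (by fun_prop) (by fun_prop), ?_, ?_, ?_, ?_⟩
      · intro z hz
        rcases hz.2 with h | ⟨σ'', h⟩
        · left; simp only [mem_ofPred_eq]; linarith
        · right; simp only [mem_ofPred_eq]; linarith [h.1]
      · intro z hz hz'
        simp only [mem_ofPred_eq] at hz hz'
        linarith
      · simp only [mem_ofPred_eq]; linarith
      · simp only [mem_ofPred_eq]; linarith [hyσ.1]
  · by_cases hyσ : y ∈ cellF a κ c0 C σ t
    · -- same cell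
      have hxU := cellF_sub_U a κ c0 C σ t ht hc0 x hxσ
      have hyU := cellF_sub_U a κ c0 C σ t ht hc0 y hyσ
      have hx0 : 0 < ‖x‖ := by linarith [hxU.1]
      have hy0 : 0 < ‖y‖ := by linarith [hyU.1]
      -- a positive cap
      have hcap : ∃ j, σ j = true ∧ 0 < hh κ (a j) x ∧ 0 < hh κ (a j) y := by
        have hω : ‖((‖x‖⁻¹ : ℝ) : ℂ) • x‖ = 1 := by
          rw [norm_smul, Complex.norm_real, norm_inv, norm_norm, inv_mul_cancel₀ hx0.ne']
        obtain ⟨j, hj⟩ := hnet _ hω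
        rw [inner_smul_right, Complex.re_ofReal_mul] at hj
        have h1 : 0 < hh κ (a j) x := by
          unfold hh
          have h2 : κ * ‖x‖ < (‖x‖⁻¹ * (inner ℂ (a j) x).re) * ‖x‖ :=
            mul_lt_mul_of_pos_right hj hx0
          have h3 : (‖x‖⁻¹ * (inner ℂ (a j) x).re) * ‖x‖ = (inner ℂ (a j) x).re := by
            field_simp
          linarith
        have h2 : σ j = true := by
          by_contra h
          have h3 : σ j = false := by simpa using h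
          have h4 := hxU.2 j
          rw [h3] at h4
          simp only [sg, Bool.false_eq_true, if_false] at h4
          linarith
        have h3 := hyU.2 j
        rw [h2] at h3
        simp only [sg, if_true, one_mul] at h3
        exact ⟨j, h2, h1, h3⟩
      obtain ⟨j, hj, hjx, hjy⟩ := hcap
      unfold hh at hjx hjy
      have hdx := dir_close (a j) x (ha j) κ (ε / 8) (by positivity) hκ hx1 (by linarith)
      have hdy := dir_close (a j) y (ha j) κ (ε / 8) (by positivity) hκ hy1 (by linarith)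
      have hdiff : ‖(‖x‖ : ℂ) • a j - (‖y‖ : ℂ) • a j‖ = |‖x‖ - ‖y‖| := by
        rw [← sub_smul, norm_smul, ha j, mul_one, ← Complex.ofReal_sub, Complex.norm_real,
          Real.norm_eq_abs]
      have htri : ‖x - y‖ ≤ ‖x - (‖x‖ : ℂ) • a j‖ + |‖x‖ - ‖y‖| + ‖y - (‖y‖ : ℂ) • a j‖ := by
        rw [← hdiff, norm_sub_rev y]
        calc ‖x - y‖ = ‖(x - (‖x‖ : ℂ) • a j) + ((‖x‖ : ℂ) • a j - (‖y‖ : ℂ) • a j) +
              ((‖y‖ : ℂ) • a j - y)‖ := by congr 1; abel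
          _ ≤ _ := norm_add₃_le
      have hgap : ε / 2 ≤ |‖x‖ - ‖y‖| := by linarith
      -- a separating radius
      have hsep : ∀ u v : V, u ∈ cellF a κ c0 C σ t → v ∈ cellF a κ c0 C σ t → ‖v‖ ≤ 1 →
          0 < ‖u‖ → ‖u‖ + ε / 2 ≤ ‖v‖ → ∃ U W : Set V, IsOpen U ∧ IsOpen W ∧
          (∀ z ∈ cut a κ c0 C Y t, z ∈ U ∨ z ∈ W) ∧ (∀ z, z ∈ U → z ∉ W) ∧ u ∈ U ∧ v ∈ W := by
        intro u v hu hv hv1 hu0 huv
        obtain ⟨c, hcC, hcu, hcv⟩ := hC σ ⟨j, hj⟩ ‖u‖ ‖v‖ hu0 hv1 huv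
        refine ⟨cellU a κ c0 σ ∩ {z | ‖z‖ < c}, cellV a κ c0 σ ∪ {z | c < ‖z‖},
          (isOpen_cellU a κ c0 σ).inter (isOpen_lt (by fun_prop) (by fun_prop)),
          (isOpen_cellV a κ c0 σ).union (isOpen_lt (by fun_prop) (by fun_prop)), ?_, ?_, ?_, ?_⟩
        · intro z hz
          rcases cut_cover a κ c0 C Y σ t ht hc0 z hz with h | h
          · have h1 := h.2.2 c hcC
            rcases lt_trichotomy ‖z‖ c with h2 | h2 | h2
            · exact Or.inl ⟨cellF_sub_U a κ c0 C σ t ht hc0 z h, h2⟩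
            · rw [h2, sub_self, abs_zero] at h1; linarith
            · exact Or.inr (Or.inr h2)
          · exact Or.inr (Or.inl h)
        · rintro z ⟨hz1, hz2⟩ (hz3 | hz3)
          · exact cellU_not_V a κ c0 σ z hz1 hz3
          · simp only [mem_ofPred_eq] at hz2 hz3
            linarith
        · exact ⟨cellF_sub_U a κ c0 C σ t ht hc0 u hu, hcu⟩
        · exact Or.inr hcv
      rcases le_or_gt ‖x‖ ‖y‖ with hle | hle
      · rw [abs_of_nonpos (by linarith)] at hgap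
        exact hsep x y hxσ hyσ hy1 hx0 (by linarith)
      · rw [abs_of_pos (by linarith)] at hgap
        obtain ⟨U, W, hU, hW, hcov, hdis, hyU', hxW⟩ := hsep y x hyσ hxσ hx1 hy0 (by linarith)
        exact ⟨W, U, hW, hU, fun z hz => (hcov z hz).symm, fun z hz hz' => hdis z hz' hz, hxW, hyU'⟩
    · refine ⟨cellU a κ c0 σ, cellV a κ c0 σ, isOpen_cellU a κ c0 σ, isOpen_cellV a κ c0 σ, ?_,
        cellU_not_V a κ c0 σ, cellF_sub_U a κ c0 C σ t ht hc0 x hxσ, ?_⟩
      · intro z hz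
        rcases cut_cover a κ c0 C Y σ t ht hc0 z hz with h | h
        · exact Or.inl (cellF_sub_U a κ c0 C σ t ht hc0 z h)
        · exact Or.inr h
      · rcases cut_cover a κ c0 C Y σ t ht hc0 y hy with h | h
        · exact absurd h hyσ
        · exact h

end split

theorem step (hperp : ∀ a : V, ∃ e : V, ‖e‖ = 1 ∧ inner ℂ a e = 0) (Y : Set V) (hY : Good Y)
    (ε : ℝ) (hε : 0 < ε) : ∃ Y' : Set V, (∀ x ∈ Y', x ∈ Y) ∧ Good Y' ∧ Split ε Y' := by
  classical
  have : ProperSpace V := FiniteDimensional.proper ℂ V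
  obtain ⟨O, hO, hO1, hO2⟩ := hY.star
  set N : Set V := cone Y ∩ touch Y with hN
  have hNc : IsCompact N := (isCompact_cone hY.compact).inter_right (isClosed_touch Y)
  have hcone1 : ∀ x ∈ cone Y, ‖x‖ ≤ 1 := by
    rintro x ⟨y, hy, r, hr0, hr1, rfl⟩
    rw [norm_smul, Complex.norm_real, Real.norm_eq_abs, abs_of_nonneg hr0]
    have := hY.sub y hy
    nlinarith [norm_nonneg y]
  have hN1 : ∀ x ∈ N, ‖x‖ ≤ 1 := fun x hx => hcone1 x hx.1
  have hN0 : ∀ x ∈ N, x ≠ 0 := by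
    intro x hx h0
    have := hY.half x hx.2
    rw [h0, norm_zero] at this
    linarith
  have hNY : ∀ x ∈ N, x ∈ Y := by
    rintro x ⟨hxc, hxt⟩
    have hxO := hO1 x hxc hxt
    have hx0 := hN0 x ⟨hxc, hxt⟩
    obtain ⟨y, hy, r, hr0, hr1, rfl⟩ := hxc
    rcases eq_or_lt_of_le hr0 with h | hr0
    · exact absurd (by rw [← h]; simp) hx0
    rcases eq_or_lt_of_le hr1 with h | hr1
    · rw [h]; simpa using hy
    exact absurd (hO2 y hy r hr0 hr1 hxO) (touch_not_interior hxt)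
  have hrad : ∀ z ∈ N, ∀ ρ : ℝ, 0 < ρ → ρ < 1 → (ρ : ℂ) • z ∉ N := by
    intro z hz ρ hρ0 hρ1 hρz
    exact touch_not_interior hρz.2 (hO2 z (hNY z hz) ρ hρ0 hρ1 (hO1 _ hρz.1 hρz.2))
  -- kappa
  obtain ⟨κ0, hκ01, hκ0⟩ := exists_kappa N hNc hN1 hN0 hrad (ε / 8) (by positivity)
  obtain ⟨κ, hκ1, hκκ0, hκ34, hκε⟩ : ∃ κ : ℝ, κ < 1 ∧ κ0 < κ ∧ 3 / 4 ≤ κ ∧
      2 - 2 * κ ≤ (ε / 8) ^ 2 := by
    refine ⟨max (max ((κ0 + 1) / 2) (3 / 4)) (1 - (ε / 8) ^ 2 / 2), ?_, ?_, ?_, ?_⟩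
    · rw [max_lt_iff, max_lt_iff]
      have : 0 < (ε / 8) ^ 2 := by positivity
      refine ⟨⟨by linarith, by norm_num⟩, by linarith⟩
    · rw [lt_max_iff, lt_max_iff]
      left; left; linarith
    · rw [le_max_iff, le_max_iff]
      left; right; exact le_rfl
    · have := le_max_right (max ((κ0 + 1) / 2) (3 / 4)) (1 - (ε / 8) ^ 2 / 2)
      linarith
  have hκsq : 1 / 2 < κ ^ 2 := by nlinarith
  obtain ⟨n, a, ha, hnet⟩ := exists_net (V := V) κ hκ1
  -- c0
  obtain ⟨c0, hc0, hc0ε, hc0Y⟩ : ∃ c0 : ℝ, 0 < c0 ∧ c0 ≤ ε / 16 ∧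
      ∀ x : V, ‖x‖ ≤ 2 * c0 → x ∈ interior Y := by
    obtain ⟨r, hr, hrY⟩ := Metric.isOpen_iff.1 isOpen_interior (0 : V) hY.zero_mem
    refine ⟨min (r / 4) (ε / 16), by positivity, min_le_right _ _, ?_⟩
    intro x hx
    apply hrY
    rw [mem_ball_zero_iff]
    have := min_le_left (r / 4) (ε / 16)
    linarith
  -- grid
  obtain ⟨m, hm⟩ := exists_nat_gt (8 / ε)
  set grid : Finset ℝ := (Finset.range m).image (fun k : ℕ => ((k : ℝ) + 1) * (ε / 8)) with hgrid
  have hgridpos : ∀ c ∈ grid, 0 < c := by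
    intro c hc
    rw [hgrid, Finset.mem_image] at hc
    obtain ⟨k, _, rfl⟩ := hc
    positivity
  set C : (Fin n → Bool) → Finset ℝ := fun σ => grid.filter
    (fun c => ∀ z ∈ N, ‖z‖ = c → ∃ j, sg (σ j) * hh κ (a j) z < 0) with hC
  have hCprop : ∀ σ, (∃ j, σ j = true) → ∀ r s : ℝ, 0 < r → s ≤ 1 → r + ε / 2 ≤ s →
      ∃ c ∈ C σ, r < c ∧ c < s := by
    rintro σ ⟨j, hj⟩ r s hr hs hrs
    set k : ℕ := ⌊r / (ε / 8)⌋₊ with hk
    have hk1 : (k : ℝ) ≤ r / (ε / 8) := Nat.floor_le (by positivity)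
    have hk2 : r / (ε / 8) < (k : ℝ) + 1 := Nat.lt_floor_add_one _
    have hε8 : 0 < ε / 8 := by positivity
    rw [le_div_iff₀ hε8] at hk1
    rw [div_lt_iff₀ hε8] at hk2
    have hmem : ∀ i : ℕ, ((i : ℝ) + 1) * (ε / 8) ≤ 1 → ((i : ℝ) + 1) * (ε / 8) ∈ grid := by
      intro i hi
      rw [hgrid, Finset.mem_image]
      refine ⟨i, ?_, rfl⟩
      rw [Finset.mem_range]
      have h1 : ((i : ℝ) + 1) ≤ 8 / ε := by
        rw [le_div_iff₀ hε]; linarith
      have h2 : (i : ℝ) < (m : ℝ) := by linarith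
      exact_mod_cast h2
    have hg1 := hmem k (by nlinarith)
    have hg2 := hmem (k + 1) (by push_cast; nlinarith)
    have hbad : ∀ c ∈ grid, c ∉ C σ → ∃ z ∈ N, ‖z‖ = c ∧ κ * ‖z‖ ≤ (inner ℂ (a j) z).re := by
      intro c hc hcC
      rw [hC, Finset.mem_filter] at hcC
      push Not at hcC
      obtain ⟨z, hz, hzc, hzj⟩ := hcC hc
      refine ⟨z, hz, hzc, ?_⟩
      have h1 := hzj j
      rw [hj] at h1
      simp only [sg, if_true, one_mul, hh] at h1
      linarith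
    by_cases h1 : ((k : ℝ) + 1) * (ε / 8) ∈ C σ
    · exact ⟨_, h1, hk2, by nlinarith⟩
    by_cases h2 : (((k + 1 : ℕ) : ℝ) + 1) * (ε / 8) ∈ C σ
    · exact ⟨_, h2, by push_cast; nlinarith, by push_cast; nlinarith⟩
    exfalso
    obtain ⟨z1, hz1, hz1c, hz1a⟩ := hbad _ hg1 h1
    obtain ⟨z2, hz2, hz2c, hz2a⟩ := hbad _ hg2 h2
    have h3 := hκ0 κ hκκ0 (a j) z2 z1 (ha j) hz2 hz1 hz2a hz1a
    rw [hz1c, hz2c] at h3
    have h4 : (((k + 1 : ℕ) : ℝ) + 1) * (ε / 8) - ((k : ℝ) + 1) * (ε / 8) = ε / 8 := by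
      push_cast; ring
    rw [h4, abs_of_pos hε8] at h3
    exact lt_irrefl _ h3
  -- eta
  obtain ⟨η, hη, hηN⟩ : ∃ η > 0, ∀ σ, ∀ c ∈ C σ, ∀ z ∈ N,
      (∀ j, 0 ≤ sg (σ j) * hh κ (a j) z) → η < |‖z‖ - c| := by
    have h1 : ∀ᶠ η : ℝ in 𝓝[>] 0, ∀ σ, ∀ c ∈ C σ, ∀ z ∈ N,
        (∀ j, 0 ≤ sg (σ j) * hh κ (a j) z) → η < |‖z‖ - c| := by
      rw [Filter.eventually_all]
      intro σ
      rw [Filter.eventually_all_finset]
      intro c hc
      have hS : IsCompact (N ∩ ⋂ j, {z : V | 0 ≤ sg (σ j) * hh κ (a j) z}) := by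
        apply hNc.inter_right
        apply isClosed_iInter
        intro j
        exact isClosed_le continuous_const (continuous_const.mul (continuous_hh κ (a j)))
      rcases (N ∩ ⋂ j, {z : V | 0 ≤ sg (σ j) * hh κ (a j) z}).eq_empty_or_nonempty with he | hne
      · filter_upwards with η z hz hzj
        have : z ∈ N ∩ ⋂ j, {z : V | 0 ≤ sg (σ j) * hh κ (a j) z} :=
          ⟨hz, mem_iInter.2 hzj⟩
        rw [he] at this
        exact absurd this (notMem_empty z)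
      · have hcont : Continuous (fun z : V => |‖z‖ - c|) := by fun_prop
        obtain ⟨w, hw, hmin⟩ := hS.exists_isMinOn hne hcont.continuousOn
        have hwpos : 0 < |‖w‖ - c| := by
          rw [abs_pos, sub_ne_zero]
          intro hwc
          rw [hC, Finset.mem_filter] at hc
          obtain ⟨j, hj⟩ := hc.2 w hw.1 hwc
          have := mem_iInter.1 hw.2 j
          simp only [mem_ofPred_eq] at this
          linarith
        filter_upwards [Ioo_mem_nhdsGT hwpos] with η hη z hz hzj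
        have h2 : |‖w‖ - c| ≤ |‖z‖ - c| := hmin ⟨hz, mem_iInter.2 hzj⟩
        exact lt_of_lt_of_le hη.2 h2
    obtain ⟨η, h2, h3⟩ := (h1.and self_mem_nhdsWithin).exists
    exact ⟨η, h3, h2⟩
  -- O'
  set O3 : Set V := {x | ∀ σ, ∀ c ∈ C σ, (∀ j, 0 ≤ sg (σ j) * hh κ (a j) x) → η < |‖x‖ - c|}
    with hO3
  have hO3o : IsOpen O3 := by
    have e1 : O3 = ⋂ σ, ⋂ c ∈ C σ, ((⋂ j, {x : V | 0 ≤ sg (σ j) * hh κ (a j) x}) ∩
        {x : V | |‖x‖ - c| ≤ η})ᶜ := by
      ext x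
      simp only [hO3, mem_ofPred_eq, mem_iInter, mem_compl_iff, mem_inter_iff, not_and, not_le]
    rw [e1]
    apply isOpen_iInter_of_finite
    intro σ
    apply isOpen_biInter_finset
    intro c _
    rw [isOpen_compl_iff]
    apply IsClosed.inter
    · apply isClosed_iInter
      intro j
      exact isClosed_le continuous_const (continuous_const.mul (continuous_hh κ (a j)))
    · exact isClosed_le (by fun_prop) (by fun_prop)
  set O' : Set V := O ∩ ({x : V | 2 * c0 < ‖x‖} ∩ O3) with hO'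
  have hO'o : IsOpen O' := by
    have e2 : IsOpen {x : V | 2 * c0 < ‖x‖} := isOpen_lt (by fun_prop) (by fun_prop)
    exact hO.inter (e2.inter hO3o)
  have hNO' : ∀ x ∈ N, x ∈ O' := by
    intro x hx
    refine ⟨hO1 x hx.1 hx.2, ?_, ?_⟩
    · simp only [mem_ofPred_eq]
      by_contra h
      exact touch_not_interior hx.2 (hc0Y x (not_lt.1 h))
    · intro σ c hc hj
      exact hηN σ c hc x hx hj
  -- T
  set T : Set V := (cone Y ∩ O'ᶜ) ∪ Metric.closedBall (0 : V) (1 / 2) with hT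
  have hTc : IsCompact T :=
    ((isCompact_cone hY.compact).inter_right hO'o.isClosed_compl).union (isCompact_closedBall _ _)
  have hTY : ∀ x ∈ T, x ∉ touch Y := by
    rintro x (⟨hx1, hx2⟩ | hx) hxt
    · exact hx2 (hNO' x ⟨hx1, hxt⟩)
    · have h1 := hY.half x hxt
      rw [mem_closedBall_zero_iff] at hx
      linarith
  obtain ⟨t0, ht0, hstab⟩ := touch_stab Y (cut a κ c0 C Y)
    (fun t => isClosed_cut a κ c0 C hY.compact.isClosed t) (fun t x hx => hY.sub x hx.1)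
    (Sum.elim (fun j : Fin n => coneWall (a j) κ c0) (fun c : ℝ => {x : V | ‖x‖ = c}))
    (Finset.univ.disjSum (insert c0 grid))
    (by
      rintro (j | c) _
      · exact isClosed_coneWall (a j) κ c0
      · exact isClosed_sphere' c)
    (by
      rintro (j | c) hk x hx
      · exact peak_cone hperp (a j) (ha j) κ c0 hκsq x hx
      · rw [Finset.inr_mem_disjSum, Finset.mem_insert] at hk
        have hcpos : 0 < c := by
          rcases hk with rfl | hk
          · exact hc0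
          · exact hgridpos c hk
        exact peak_sphere hperp c hcpos x hx)
    (by
      intro x hx hno
      apply cut_off_walls a κ c0 C Y x hx
      · intro h
        exact hno (Sum.inr c0) (by rw [Finset.inr_mem_disjSum]; exact Finset.mem_insert_self _ _) h
      · intro σ c hc h
        refine hno (Sum.inr c) ?_ h
        rw [Finset.inr_mem_disjSum]
        exact Finset.mem_insert_of_mem (Finset.mem_filter.1 hc).1
      · intro j h
        exact hno (Sum.inl j) (by rw [Finset.inl_mem_disjSum]; exact Finset.mem_univ _) h)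
    T hTc hTY
  -- t
  obtain ⟨t, htpos, htt0, htc0, htη⟩ : ∃ t : ℝ, 0 < t ∧ t < t0 ∧ t < c0 ∧ t < η := by
    refine ⟨min (min t0 c0) η / 2, by positivity, ?_, ?_, ?_⟩
    · have := min_le_left (min t0 c0) η
      have := min_le_left t0 c0
      linarith
    · have := min_le_left (min t0 c0) η
      have := min_le_right t0 c0
      linarith
    · have := min_le_right (min t0 c0) η
      linarith
  have hst := hstab t htpos htt0
  refine ⟨cut a κ c0 C Y t, fun x hx => hx.1, ?_, ?_⟩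
  · refine ⟨?_, fun x hx => hY.sub x hx.1, ?_, ?_, O', hO'o, ?_, ?_⟩
    · exact hY.compact.of_isClosed_subset (isClosed_cut a κ c0 C hY.compact.isClosed t)
        (fun x hx => hx.1)
    · rw [mem_interior_iff_mem_nhds]
      filter_upwards [Metric.ball_mem_nhds (0 : V) (show 0 < c0 - t by linarith)] with x hx
      rw [mem_ball_zero_iff] at hx
      exact ⟨interior_subset (hc0Y x (by linarith)), Or.inl hx.le⟩
    · intro x hx
      by_contra h
      apply hst x hx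
      right
      rw [mem_closedBall_zero_iff]
      exact not_lt.1 h
    · intro x hx hxt
      by_contra h
      apply hst x hxt
      left
      exact ⟨cone_mono (fun x hx => hx.1) x hx, h⟩
    · intro y hy r hr0 hr1 hry
      have hry0 : r • ‖y‖ = ‖(r : ℂ) • y‖ := by
        rw [norm_smul, Complex.norm_real, Real.norm_eq_abs, abs_of_pos hr0, smul_eq_mul]
      rw [smul_eq_mul] at hry0
      have h1 : 2 * c0 < ‖(r : ℂ) • y‖ := hry.2.1
      have hynn := norm_nonneg y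
      have h2 : 2 * c0 < ‖y‖ := by nlinarith
      have hyi : (r : ℂ) • y ∈ interior Y := hO2 y hy.1 r hr0 hr1 hry.1
      rcases hy.2 with h | ⟨σ, hσ⟩
      · linarith
      · have hW : (t, (r : ℂ) • y) ∈ cellW a κ c0 C σ := by
          have hj : ∀ j, t * ‖(r : ℂ) • y‖ ^ 2 < sg (σ j) * hh κ (a j) ((r : ℂ) • y) := by
            intro j
            rw [hh_smul κ (a j) y r hr0.le, ← hry0]
            have h3 := hσ.2.1 j
            have h4 : 0 < ‖y‖ := by linarith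
            have h5 : t * (r * ‖y‖) ^ 2 < r * (t * ‖y‖ ^ 2) := by
              have h6 : 0 < t * ‖y‖ ^ 2 * r * (1 - r) := by
                have : 0 < 1 - r := by linarith
                positivity
              nlinarith
            have h7 : r * (t * ‖y‖ ^ 2) ≤ r * (sg (σ j) * hh κ (a j) y) :=
              mul_le_mul_of_nonneg_left h3 hr0.le
            linarith
          refine ⟨?_, hj, ?_⟩
          · simp only; linarith
          · intro c hc
            simp only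
            have h3 := hry.2.2 σ c hc (fun j => by
              have h4 := hj j
              have h5 : 0 ≤ t * ‖(r : ℂ) • y‖ ^ 2 := by positivity
              linarith)
            linarith
        rw [mem_interior_iff_mem_nhds]
        have h3 : ∀ᶠ x in 𝓝 ((r : ℂ) • y), (t, x) ∈ cellW a κ c0 C σ := by
          have h4 : Continuous (fun x : V => (t, x)) := by fun_prop
          exact (h4.isOpen_preimage _ (isOpen_cellW a κ c0 C σ)).mem_nhds hW
        filter_upwards [h3, isOpen_interior.mem_nhds hyi] with x hx1 hx2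
        exact ⟨interior_subset hx2, Or.inr ⟨σ, cellW_sub a κ c0 C hx1⟩⟩
  · exact split_cut a κ c0 C Y hY.sub ε t hε htpos hc0 hc0ε ha hnet hκε hCprop

end Pool.Agent.H83.CH
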