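import Mathlib
import Pool.Agent.H83.CH.Step
import Pool.Agent.H83.CH.Brouwer

/-!
# The limit set, its perfect kernel, and the Cantor set
-/

set_option autoImplicit false
set_option linter.unusedSectionVars false

open Set Filter Topology

namespace Pool.Agent.H83.CH

variable {V : Type*} [NormedAddCommGroup V] [InnerProductSpace ℂ V] [FiniteDimensional ℂ V]

/-- entire functions without zeros on `X` have no zeros on the cone over `X` and on the half ball -/
def PropE (X : Set V) : Prop := ∀ q : V → ℂ, Differentiable ℂ q → (∀ x ∈ X, q x ≠ 0) →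
  ∀ x : V, (x ∈ cone X ∨ ‖x‖ ≤ 1 / 2) → q x ≠ 0

/-- distinct points are separated by a partition -/
def Sep (X : Set V) : Prop := ∀ x ∈ X, ∀ y ∈ X, x ≠ y → ∃ U W : Set V, IsOpen U ∧ IsOpen W ∧
    (∀ z ∈ X, z ∈ U ∨ z ∈ W) ∧ (∀ z, z ∈ U → z ∉ W) ∧ x ∈ U ∧ y ∈ W

theorem exists_limit (hperp : ∀ a : V, ∃ e : V, ‖e‖ = 1 ∧ inner ℂ a e = 0) :
    ∃ X : Set V, IsCompact X ∧ Sep X ∧ PropE X := by
  have hstep : ∀ (n : ℕ) (Y : {Y : Set V // Good Y}), ∃ Y' : {Y : Set V // Good Y},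
      (∀ x ∈ Y'.1, x ∈ Y.1) ∧ Split (1 / ((n : ℝ) + 1)) Y'.1 := by
    intro n Y
    obtain ⟨Y', h1, h2, h3⟩ := step hperp Y.1 Y.2 (1 / ((n : ℝ) + 1)) (by positivity)
    exact ⟨⟨Y', h2⟩, h1, h3⟩
  choose g hg1 hg2 using hstep
  set F : ℕ → {Y : Set V // Good Y} := fun n =>
    Nat.rec ⟨Metric.closedBall (0 : V) 1, good_base⟩ (fun n Y => g n Y) n with hF
  have hFs : ∀ n, F (n + 1) = g n (F n) := fun n => rfl
  have hsub : ∀ n, (F (n + 1)).1 ⊆ (F n).1 := by
    intro n x hx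
    rw [hFs] at hx
    exact hg1 n (F n) x hx
  have hanti : Antitone (fun n => (F n).1) := antitone_nat_of_succ_le hsub
  have hcl : ∀ n, IsClosed (F n).1 := fun n => (F n).2.compact.isClosed
  refine ⟨⋂ n, (F n).1, ?_, ?_, ?_⟩
  · exact (F 0).2.compact.of_isClosed_subset (isClosed_iInter hcl) (iInter_subset _ 0)
  · intro x hx y hy hne
    have hpos : 0 < ‖x - y‖ := norm_pos_iff.2 (sub_ne_zero.2 hne)
    obtain ⟨n, hn⟩ := exists_nat_one_div_lt hpos
    have hs := hg2 n (F n)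
    rw [← hFs] at hs
    obtain ⟨U, W, hU, hW, hcov, hdis, hxU, hyW⟩ :=
      hs x (mem_iInter.1 hx (n + 1)) y (mem_iInter.1 hy (n + 1)) hn.le
    exact ⟨U, W, hU, hW, fun z hz => hcov z (mem_iInter.1 hz (n + 1)), hdis, hxU, hyW⟩
  · intro q hq hqX x hx
    have h1 : ∃ n, ∀ z ∈ (F n).1, q z ≠ 0 := by
      by_contra hcon
      push Not at hcon
      have hne : (⋂ n, ((F n).1 ∩ {z | q z = 0})).Nonempty := by
        apply IsCompact.nonempty_iInter_of_sequence_nonempty_isCompact_isClosed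
        · intro n
          exact inter_subset_inter_left _ (hsub n)
        · intro n
          obtain ⟨z, hz, hqz⟩ := hcon n
          exact ⟨z, hz, hqz⟩
        · exact (F 0).2.compact.inter_right (isClosed_eq hq.continuous continuous_const)
        · intro n
          exact (hcl n).inter (isClosed_eq hq.continuous continuous_const)
      obtain ⟨z, hz⟩ := hne
      rw [mem_iInter] at hz
      exact hqX z (mem_iInter.2 fun n => (hz n).1) (hz 0).2
    obtain ⟨n, hn⟩ := h1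
    have h2 := (F n).2.noZero hq hn
    rcases hx with hx | hx
    · exact h2.1 x (cone_mono (fun z hz => mem_iInter.1 hz n) x hx)
    · exact h2.2 x hx

theorem real_avoid (s : Set ℝ) (hs : s.Countable) (b : ℝ) (hb : 0 < b) :
    ∃ r, 0 < r ∧ r < b ∧ r ∉ s := by
  have h1 : Dense sᶜ := hs.dense_compl ℝ
  obtain ⟨r, hr1, hr2⟩ := h1.exists_between hb
  exact ⟨r, hr2.1, hr2.2, hr1⟩

theorem cone_star (X : Set V) (x : V) (hx : x ∈ cone X ∨ ‖x‖ ≤ 1 / 2) (ρ : ℝ) (hρ0 : 0 ≤ ρ)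
    (hρ1 : ρ ≤ 1) : (ρ : ℂ) • x ∈ cone X ∨ ‖(ρ : ℂ) • x‖ ≤ 1 / 2 := by
  rcases hx with ⟨y, hy, r, hr0, hr1, rfl⟩ | hx
  · left
    refine ⟨y, hy, ρ * r, by positivity, by nlinarith, ?_⟩
    rw [smul_smul]
    push_cast; rfl
  · right
    rw [norm_smul, Complex.norm_real, Real.norm_eq_abs, abs_of_nonneg hρ0]
    nlinarith [norm_nonneg x]

theorem exists_kernel (hperp : ∀ a : V, ∃ e : V, ‖e‖ = 1 ∧ inner ℂ a e = 0) (X : Set V)
    (hX : IsCompact X) (hsep : Sep X) (hE : PropE X) :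
    ∃ D : Set V, IsCompact D ∧ Sep D ∧ PropE D ∧ D.Nonempty ∧ Perfect D := by
  have hprop : ProperSpace V := FiniteDimensional.proper ℂ V
  obtain ⟨Cn, D, hCn, hD, hXCD⟩ := exists_countable_union_perfect_of_isClosed hX.isClosed
  have hDX : D ⊆ X := by rw [hXCD]; exact subset_union_right
  have hDc : IsCompact D := hX.of_isClosed_subset hD.closed hDX
  have hDne : D.Nonempty := by
    by_contra hne
    rw [not_nonempty_iff_eq_empty] at hne
    rw [hne, union_empty] at hXCD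
    obtain ⟨e, he, _⟩ := hperp 0
    obtain ⟨r, hr0, hr1, hrs⟩ := real_avoid ((fun x : V => ‖inner ℂ e x‖) '' X)
      (by rw [hXCD]; exact hCn.image _) (1 / 2) (by norm_num)
    have hq : Differentiable ℂ (fun x : V => inner ℂ e x - (r : ℂ)) :=
      ((innerSL ℂ e).differentiable).sub (differentiable_const _)
    have hz := hE _ hq (by
      intro x hx h0
      apply hrs
      refine ⟨x, hx, ?_⟩
      simp only at h0 ⊢
      rw [sub_eq_zero] at h0
      rw [h0, Complex.norm_real, Real.norm_eq_abs, abs_of_pos hr0])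
      ((r : ℂ) • e) (Or.inr (by
        rw [norm_smul, he, mul_one, Complex.norm_real, Real.norm_eq_abs, abs_of_pos hr0]
        exact hr1.le))
    apply hz
    rw [inner_smul_right, inner_self_eq_norm_sq_to_K, he]
    simp
  refine ⟨D, hDc, ?_, ?_, hDne, hD⟩
  · intro x hx y hy hne
    obtain ⟨U, W, hU, hW, hcov, hdis, hxU, hyW⟩ := hsep x (hDX hx) y (hDX hy) hne
    exact ⟨U, W, hU, hW, fun z hz => hcov z (hDX hz), hdis, hxU, hyW⟩
  · intro q hq hqD x hx hx0
    obtain ⟨d0, hd0, hmin⟩ := hDc.exists_isMinOn hDne hq.continuous.norm.continuousOn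
    set m : ℝ := ‖q d0‖ with hm
    have hmpos : 0 < m := norm_pos_iff.2 (hqD d0 hd0)
    have hmD : ∀ d ∈ D, m ≤ ‖q d‖ := fun d hd => hmin hd
    -- no value of small modulus off the countable set is attained
    have hno : ∀ w : V, (w ∈ cone X ∨ ‖w‖ ≤ 1 / 2) → ‖q w‖ < m →
        ‖q w‖ ∉ (fun x : V => ‖q x‖) '' Cn → False := by
      intro w hw hwm hwC
      have hq' : Differentiable ℂ (fun x : V => q x - q w) := hq.sub (differentiable_const _)
      apply hE _ hq' _ w hw (sub_self _)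
      intro z hz h0
      rw [sub_eq_zero] at h0
      rw [hXCD] at hz
      rcases hz with hz | hz
      · apply hwC
        exact ⟨z, hz, by simp only [h0]⟩
      · have := hmD z hz
        rw [h0] at this
        linarith
    have hseg : ∀ u : V, (u ∈ cone X ∨ ‖u‖ ≤ 1 / 2) →
        (q 0 = 0 ∧ q u ≠ 0 ∨ q 0 ≠ 0 ∧ q u = 0) → False := by
      intro u hu hval
      have hcont : Continuous (fun ρ : ℝ => ‖q ((ρ : ℂ) • u)‖) := by
        apply (hq.continuous.comp _).norm
        fun_prop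
      have hval0 : ‖q (((0 : ℝ) : ℂ) • u)‖ = ‖q 0‖ := by simp
      have hval1 : ‖q (((1 : ℝ) : ℂ) • u)‖ = ‖q u‖ := by simp
      rcases hval with ⟨h1, h2⟩ | ⟨h1, h2⟩
      · have hpos : 0 < ‖q u‖ := norm_pos_iff.2 h2
        obtain ⟨r, hr0, hr1, hrs⟩ := real_avoid _ (hCn.image (fun x : V => ‖q x‖))
          (min m ‖q u‖) (lt_min hmpos hpos)
        have hIcc := intermediate_value_Icc (zero_le_one' ℝ) hcont.continuousOn
        have hr : r ∈ Icc ‖q (((0 : ℝ) : ℂ) • u)‖ ‖q (((1 : ℝ) : ℂ) • u)‖ := by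
          rw [hval0, hval1, h1, norm_zero]
          exact ⟨hr0.le, (hr1.trans_le (min_le_right _ _)).le⟩
        obtain ⟨ρ, ⟨hρ0, hρ1⟩, hρr⟩ := hIcc hr
        simp only at hρr
        apply hno ((ρ : ℂ) • u) (cone_star X u hu ρ hρ0 hρ1)
        · rw [hρr]; exact hr1.trans_le (min_le_left _ _)
        · rw [hρr]; exact hrs
      · have hpos : 0 < ‖q 0‖ := norm_pos_iff.2 h1
        obtain ⟨r, hr0, hr1, hrs⟩ := real_avoid _ (hCn.image (fun x : V => ‖q x‖))
          (min m ‖q 0‖) (lt_min hmpos hpos)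
        have hIcc := intermediate_value_Icc' (zero_le_one' ℝ) hcont.continuousOn
        have hr : r ∈ Icc ‖q (((1 : ℝ) : ℂ) • u)‖ ‖q (((0 : ℝ) : ℂ) • u)‖ := by
          rw [hval0, hval1, h2, norm_zero]
          exact ⟨hr0.le, (hr1.trans_le (min_le_right _ _)).le⟩
        obtain ⟨ρ, ⟨hρ0, hρ1⟩, hρr⟩ := hIcc hr
        simp only at hρr
        apply hno ((ρ : ℂ) • u) (cone_star X u hu ρ hρ0 hρ1)
        · rw [hρr]; exact hr1.trans_le (min_le_left _ _)
        · rw [hρr]; exact hrs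
    by_cases h0 : q 0 = 0
    · refine hseg d0 (Or.inl ⟨d0, hDX hd0, 1, zero_le_one, le_rfl, by simp⟩)
        (Or.inl ⟨h0, hqD d0 hd0⟩)
    · apply hseg x _ (Or.inr ⟨h0, hx0⟩)
      rcases hx with hx | hx
      · exact Or.inl (cone_mono hDX x hx)
      · exact Or.inr hx

theorem cantor_of_sep (D : Set V) (hD : IsCompact D) (hsep : Sep D) (hne : D.Nonempty)
    (hp : Perfect D) : Nonempty (D ≃ₜ (ℕ → Bool)) := by
  have hprop : ProperSpace V := FiniteDimensional.proper ℂ V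
  have hc : CompactSpace D := isCompact_iff_compactSpace.1 hD
  have hn : Nonempty D := hne.to_subtype
  -- clopen separation
  have hclopen : ∀ x y : D, x ≠ y → ∃ A : Set D, IsClopen A ∧ x ∈ A ∧ y ∉ A := by
    intro x y hxy
    obtain ⟨U, W, hU, hW, hcov, hdis, hxU, hyW⟩ := hsep x.1 x.2 y.1 y.2
      (fun h => hxy (Subtype.ext h))
    refine ⟨Subtype.val ⁻¹' U, ⟨?_, hU.preimage continuous_subtype_val⟩, hxU, ?_⟩
    · rw [← isOpen_compl_iff]
      have : (Subtype.val ⁻¹' U : Set D)ᶜ = Subtype.val ⁻¹' W := by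
        ext z
        simp only [mem_compl_iff, mem_preimage]
        constructor
        · intro h
          exact (hcov z.1 z.2).resolve_left h
        · intro h h'
          exact hdis z.1 h' h
      rw [this]
      exact hW.preimage continuous_subtype_val
    · intro h
      exact hdis y.1 h hyW
  have hts : TotallySeparatedSpace D := by
    refine ⟨?_⟩
    intro x _ y _ hxy
    obtain ⟨A, hA, hxA, hyA⟩ := hclopen x y hxy
    exact ⟨A, Aᶜ, hA.isOpen, hA.compl.isOpen, hxA, hyA, fun z _ => by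
      by_cases h : z ∈ A
      · exact Or.inl h
      · exact Or.inr h, disjoint_compl_right⟩
  apply brouwer
  rintro U hU ⟨x, hxU⟩
  -- another point
  have h1 : ∃ y ∈ U, y ≠ x := by
    obtain ⟨O, hO, hOU⟩ := isOpen_induced_iff.1 hU.isOpen
    have hxO : x.1 ∈ O := by
      have : x ∈ Subtype.val ⁻¹' O := by rw [hOU]; exact hxU
      exact this
    have hacc := hp.acc x.1 x.2
    rw [accPt_iff_nhds] at hacc
    obtain ⟨y, ⟨hyO, hyD⟩, hyx⟩ := hacc O (hO.mem_nhds hxO)
    refine ⟨⟨y, hyD⟩, ?_, fun h => hyx (congrArg Subtype.val h)⟩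
    rw [← hOU]
    exact hyO
  obtain ⟨y, hyU, hyx⟩ := h1
  obtain ⟨A, hA, hxA, hyA⟩ := hclopen x y hyx.symm
  exact ⟨U ∩ A, hU.inter hA, inter_subset_left, ⟨x, hxU, hxA⟩, ⟨y, hyU, fun h => hyA h.2⟩⟩

end Pool.Agent.H83.CH
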