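import Mathlib
import Pool.Agent.H83.CH.Limit

/-!
# The star shape principle for polynomial hulls in two variables
-/

set_option autoImplicit false
set_option linter.unusedSectionVars false

open Set Filter Topology

namespace Pool.Agent.H83.CH

/-- two dimensional complex Euclidean space -/
abbrev E2 : Type := EuclideanSpace ℂ (Fin 2)

/-- evaluation of polynomials -/
noncomputable def pev (p : MvPolynomial (Fin 2) ℂ) (x : E2) : ℂ :=
  MvPolynomial.eval (fun i => x i) p

theorem pev_differentiable (p : MvPolynomial (Fin 2) ℂ) : Differentiable ℂ (pev p) := by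
  induction p using MvPolynomial.induction_on with
  | C a =>
    have : pev (MvPolynomial.C a) = fun _ => a := by
      funext x; simp [pev]
    rw [this]
    exact differentiable_const _
  | add p q hp hq =>
    have : pev (p + q) = fun x => pev p x + pev q x := by
      funext x; simp [pev]
    rw [this]
    exact hp.add hq
  | mul_X p i hp =>
    have : pev (p * MvPolynomial.X i) = fun x => pev p x * x i := by
      funext x; simp [pev]
    rw [this]
    have h2 : Differentiable ℂ (fun x : E2 => x i) := by fun_prop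
    exact hp.mul h2

theorem star_hull (D : Set E2) (hD : IsCompact D) (p : MvPolynomial (Fin 2) ℂ)
    (hp : ∀ s ∈ Icc (0 : ℝ) 1, ∀ x ∈ D, pev p ((s : ℂ) • x) ≠ 0) (z : E2)
    (hz : ∀ r : MvPolynomial (Fin 2) ℂ, ∃ w ∈ D, ‖pev r z‖ ≤ ‖pev r w‖) : pev p z ≠ 0 := by
  have hcs : CompactSpace D := isCompact_iff_compactSpace.1 hD
  obtain ⟨w0, hw0, _⟩ := hz 0
  let Φ : MvPolynomial (Fin 2) ℂ →ₐ[ℂ] C(D, ℂ) :=
    MvPolynomial.aeval (fun i => (⟨fun x => x.1 i, by fun_prop⟩ : C(D, ℂ)))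
  have hΦ : ∀ (r : MvPolynomial (Fin 2) ℂ) (x : D), Φ r x = pev r x.1 := by
    intro r x
    induction r using MvPolynomial.induction_on with
    | C a => simp [Φ, pev]
    | add p q hp hq => rw [map_add, ContinuousMap.add_apply, hp, hq]; simp [pev]
    | mul_X p i hp =>
      rw [map_mul, ContinuousMap.mul_apply, hp]
      simp [pev, Φ]
  let S : Subalgebra ℂ C(D, ℂ) := Φ.range.topologicalClosure
  have hS : IsClosed (S : Set C(D, ℂ)) := Subalgebra.isClosed_topologicalClosure _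
  have hSc : CompleteSpace S := hS.completeSpace_coe
  let sc : ℂ → MvPolynomial (Fin 2) ℂ := fun s =>
    MvPolynomial.bind₁ (fun i => MvPolynomial.C s * MvPolynomial.X i) p
  have hsc : ∀ (s : ℂ) (x : E2), pev (sc s) x = pev p (s • x) := by
    intro s x
    simp only [pev, sc]
    rw [← MvPolynomial.coe_aeval_eq_eval, ← MvPolynomial.coe_aeval_eq_eval, RingHom.coe_coe,
      RingHom.coe_coe, MvPolynomial.aeval_bind₁]
    simp
  have hpc : Continuous (pev p) := (pev_differentiable p).continuous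
  let G : C(ℝ × D, ℂ) := ⟨fun y => pev p ((y.1 : ℂ) • y.2.1), by
    apply hpc.comp
    fun_prop⟩
  have hG : ∀ s : ℝ, G.curry s = Φ (sc s) := by
    intro s
    ext x
    rw [hΦ, hsc]
    rfl
  let g : ℝ → S := fun s => ⟨G.curry s, by
    rw [hG]; exact Subalgebra.le_topologicalClosure _ ⟨_, rfl⟩⟩
  have hgc : Continuous g := by
    exact (ContinuousMap.continuous G.curry).subtype_mk _
  have hopen : IsOpen {s : ℝ | IsUnit (g s)} := Units.isOpen.preimage hgc
  have hI : Icc (0 : ℝ) 1 ⊆ {s : ℝ | IsUnit (g s)} := by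
    apply isPreconnected_Icc.subset_of_closure_inter_subset hopen
    · refine ⟨0, ⟨le_rfl, zero_le_one⟩, ?_⟩
      have h0 : g 0 = algebraMap ℂ S (pev p 0) := by
        apply Subtype.ext
        ext x
        change pev p (((0 : ℝ) : ℂ) • x.1) = _
        simp
      simp only [mem_ofPred_eq]
      rw [h0]
      apply IsUnit.map
      apply IsUnit.mk0
      have := hp 0 ⟨le_rfl, zero_le_one⟩ w0 hw0
      simpa using this
    · rintro s ⟨hs, hsI⟩
      have hne : (𝓝[{s : ℝ | IsUnit (g s)}] s).NeBot := mem_closure_iff_nhdsWithin_neBot.1 hs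
      have : IsClosed (S : Set C(D, ℂ)) := hS
      apply Subalgebra.isUnit_of_isUnit_val_of_eventually S (l := map g (𝓝[{s : ℝ | IsUnit (g s)}] s))
      · rw [ContinuousMap.isUnit_iff_forall_ne_zero]
        intro x
        exact hp s hsI x.1 x.2
      · exact (hgc.tendsto s).mono_left nhdsWithin_le_nhds
      · rw [eventually_map]
        exact self_mem_nhdsWithin
      · exact Filter.map_neBot
  have h1 : IsUnit (g 1) := hI ⟨zero_le_one, le_rfl⟩
  obtain ⟨b, hb⟩ := h1.exists_right_inv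
  have hb1 : ∀ x : D, pev p x.1 * (b : C(D, ℂ)) x = 1 := by
    intro x
    have h2 : (g 1 * b : S) = 1 := hb
    have h3 : ((g 1 * b : S) : C(D, ℂ)) x = 1 := by rw [h2]; rfl
    have h4 : ((g 1 * b : S) : C(D, ℂ)) x = pev p (((1 : ℝ) : ℂ) • x.1) * (b : C(D, ℂ)) x := rfl
    rw [h4] at h3
    simpa using h3
  -- approximate b
  have hbS : (b : C(D, ℂ)) ∈ closure (Φ.range : Set C(D, ℂ)) := b.2
  rw [Metric.mem_closure_iff] at hbS
  obtain ⟨f, ⟨r, rfl⟩, hf⟩ := hbS (1 / (‖Φ p‖ + 1)) (by positivity)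
  intro hpz
  obtain ⟨w, hw, hle⟩ := hz (p * r - 1)
  have h5 : ‖pev (p * r - 1) z‖ = 1 := by
    have h6 : pev (p * r - 1) z = pev p z * pev r z - 1 := by simp [pev]
    rw [h6, hpz, zero_mul, zero_sub, norm_neg, norm_one]
  have h7 : pev (p * r - 1) w = pev p w * (pev r w - (b : C(D, ℂ)) ⟨w, hw⟩) := by
    have h6 : pev (p * r - 1) w = pev p w * pev r w - 1 := by simp [pev]
    rw [h6, mul_sub, hb1 ⟨w, hw⟩]
  have h8 : ‖pev p w‖ ≤ ‖Φ p‖ := by
    have := ContinuousMap.norm_coe_le_norm (Φ p) ⟨w, hw⟩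
    rwa [hΦ] at this
  have h9 : ‖pev r w - (b : C(D, ℂ)) ⟨w, hw⟩‖ ≤ 1 / (‖Φ p‖ + 1) := by
    have h10 := ContinuousMap.dist_apply_le_dist (f := (b : C(D, ℂ))) (g := Φ r) ⟨w, hw⟩
    rw [dist_eq_norm, hΦ, norm_sub_rev] at h10
    exact h10.trans hf.le
  rw [h5, h7, norm_mul] at hle
  have h11 : ‖pev p w‖ * ‖pev r w - (b : C(D, ℂ)) ⟨w, hw⟩‖ ≤ ‖Φ p‖ * (1 / (‖Φ p‖ + 1)) :=
    mul_le_mul h8 h9 (norm_nonneg _) (norm_nonneg _)
  have h12 : ‖Φ p‖ * (1 / (‖Φ p‖ + 1)) < 1 := by
    rw [mul_one_div, div_lt_one (by positivity)]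
    linarith
  linarith

theorem hperp2 (a : E2) : ∃ e : E2, ‖e‖ = 1 ∧ inner ℂ a e = 0 := by
  by_cases ha : a = 0
  · refine ⟨EuclideanSpace.single 0 1, by simp, by rw [ha, inner_zero_left]⟩
  · set v : E2 := !₂[-(starRingEnd ℂ) (a 1), (starRingEnd ℂ) (a 0)] with hv
    have hv0 : v ≠ 0 := by
      intro h
      apply ha
      ext i
      have h0 : v 0 = 0 := by rw [h]; rfl
      have h1 : v 1 = 0 := by rw [h]; rfl
      simp [hv] at h0 h1
      fin_cases i
      · simpa using h1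
      · simpa using h0
    refine ⟨((‖v‖⁻¹ : ℝ) : ℂ) • v, ?_, ?_⟩
    · rw [norm_smul, Complex.norm_real, norm_inv, norm_norm, inv_mul_cancel₀ (norm_ne_zero_iff.2 hv0)]
    · rw [inner_smul_right]
      have : inner ℂ a v = 0 := by
        rw [PiLp.inner_apply]
        simp [hv, Fin.sum_univ_two]
        ring
      rw [this, mul_zero]

/-- the main theorem, in Euclidean coordinates -/
theorem main2 : ∃ D : Set E2, Nonempty (D ≃ₜ (ℕ → Bool)) ∧
    (∀ z : E2, (∀ p : MvPolynomial (Fin 2) ℂ, ∃ w ∈ D, ‖pev p z‖ ≤ ‖pev p w‖) ↔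
      (∀ p : MvPolynomial (Fin 2) ℂ, pev p z = 0 → ∃ w ∈ D, pev p w = 0)) ∧
    ∃ z : E2, z ∉ D ∧ ∀ p : MvPolynomial (Fin 2) ℂ, ∃ w ∈ D, ‖pev p z‖ ≤ ‖pev p w‖ := by
  obtain ⟨X, hX, hXs, hXE⟩ := exists_limit hperp2
  obtain ⟨D, hD, hDs, hDE, hDne, hDp⟩ := exists_kernel hperp2 X hX hXs hXE
  have hiff : ∀ z : E2, (∀ p : MvPolynomial (Fin 2) ℂ, ∃ w ∈ D, ‖pev p z‖ ≤ ‖pev p w‖) ↔
      (∀ p : MvPolynomial (Fin 2) ℂ, pev p z = 0 → ∃ w ∈ D, pev p w = 0) := by
    intro z
    constructor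
    · intro hz p hpz
      by_contra hno
      push Not at hno
      apply star_hull D hD p _ z hz hpz
      intro s hs x hx
      exact hDE (pev p) (pev_differentiable p) hno _ (Or.inl ⟨x, hx, s, hs.1, hs.2, rfl⟩)
    · intro hz p
      by_contra hno
      push Not at hno
      obtain ⟨w, hw, hw0⟩ := hz (p - MvPolynomial.C (pev p z)) (by simp [pev])
      have h1 : pev (p - MvPolynomial.C (pev p z)) w = pev p w - pev p z := by simp [pev]
      rw [h1, sub_eq_zero] at hw0
      have := hno w hw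
      rw [hw0] at this
      exact lt_irrefl _ this
  refine ⟨D, cantor_of_sep D hD hDs hDne hDp, hiff, ?_⟩
  -- a point of the hull outside D
  have hball : ∀ z : E2, ‖z‖ ≤ 1 / 2 → ∀ p : MvPolynomial (Fin 2) ℂ, ∃ w ∈ D,
      ‖pev p z‖ ≤ ‖pev p w‖ := by
    intro z hz
    rw [hiff]
    intro p hpz
    by_contra hno
    push Not at hno
    exact hDE (pev p) (pev_differentiable p) hno z (Or.inr hz) hpz
  have hex : ∃ z : E2, ‖z‖ ≤ 1 / 2 ∧ z ∉ D := by
    by_contra hcon
    push Not at hcon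
    obtain ⟨e, he, _⟩ := hperp2 0
    have h0 : (0 : E2) ∈ D := hcon 0 (by simp)
    have hen : ‖((1 / 2 : ℝ) : ℂ) • e‖ ≤ 1 / 2 := by
      rw [norm_smul, he, Complex.norm_real]; norm_num
    have h1 : ((1 / 2 : ℝ) : ℂ) • e ∈ D := hcon _ hen
    have hne : (0 : E2) ≠ ((1 / 2 : ℝ) : ℂ) • e := by
      intro h
      have h2 := congrArg norm h
      rw [norm_zero, norm_smul, he, Complex.norm_real] at h2
      norm_num at h2
    obtain ⟨U, W, hU, hW, hcov, hdis, h0U, h1W⟩ := hDs _ h0 _ h1 hne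
    have hpre : IsPreconnected (Metric.closedBall (0 : E2) (1 / 2)) :=
      (convex_closedBall (0 : E2) (1 / 2)).isPreconnected
    obtain ⟨w, _, hwU, hwW⟩ := hpre U W hU hW (by
      intro z hz
      rw [mem_closedBall_zero_iff] at hz
      exact hcov z (hcon z hz)) ⟨0, by simp, h0U⟩
      ⟨_, by rw [mem_closedBall_zero_iff]; exact hen, h1W⟩
    exact hdis w hwU hwW
  obtain ⟨z, hz1, hz2⟩ := hex
  exact ⟨z, hz2, hball z hz1⟩

end Pool.Agent.H83.CH
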